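import Mathlib
import Pool.Agent.H544.LD.Fin

/-!
The number of roots modulo a prime of a system, on average over the constant terms: the second moment.
-/

set_option autoImplicit false

namespace Pool.Agent.H544.ES
open Finset Polynomial
open Pool.Agent.H544.LD (om Hp Hp_eval va Hp_va Bx)
open Pool.Agent.H373R2.T7 (count_class)

/-- products of numbers of `[0, 1]` -/
lemma prod_diff {ι : Type*} [DecidableEq ι] (S : Finset ι) (x y : ι → ℝ) (hx : ∀ i ∈ S, 0 ≤ x i ∧ x i ≤ 1) (hy : ∀ i ∈ S, 0 ≤ y i ∧ y i ≤ 1) :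
    |∏ i ∈ S, x i - ∏ i ∈ S, y i| ≤ ∑ i ∈ S, |x i - y i| := by
  induction S using Finset.induction_on with
  | empty => simp
  | insert i S hi ih =>
    rw [prod_insert hi, prod_insert hi, sum_insert hi]
    have h1 := ih (fun j hj => hx j (mem_insert_of_mem hj)) (fun j hj => hy j (mem_insert_of_mem hj))
    have h2 := hx i (mem_insert_self _ _)
    have h3 := hy i (mem_insert_self _ _)
    have h4 : 0 ≤ ∏ j ∈ S, x j := prod_nonneg fun j hj => (hx j (mem_insert_of_mem hj)).1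
    have h5 : ∏ j ∈ S, x j ≤ 1 := prod_le_one (fun j hj => (hx j (mem_insert_of_mem hj)).1) (fun j hj => (hx j (mem_insert_of_mem hj)).2)
    have e : x i * ∏ j ∈ S, x j - y i * ∏ j ∈ S, y j = (x i - y i) * ∏ j ∈ S, x j + y i * (∏ j ∈ S, x j - ∏ j ∈ S, y j) := by ring
    rw [e]
    refine (abs_add_le _ _).trans (add_le_add ?_ ?_)
    · rw [abs_mul, abs_of_nonneg h4]
      exact mul_le_of_le_one_right (abs_nonneg _) h5
    · rw [abs_mul, abs_of_nonneg h3.1]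
      exact (mul_le_of_le_one_left (abs_nonneg _) h3.2).trans h1

/-- the indicator of a class -/
noncomputable def ind (p : ℕ) (s : ℤ) (a : ℕ) : ℝ := if (p : ℤ) ∣ (a : ℤ) + s then 1 else 0

lemma ind01 (p : ℕ) (s : ℤ) (a : ℕ) : 0 ≤ ind p s a ∧ ind p s a ≤ 1 := by
  unfold ind
  split_ifs <;> norm_num

lemma class_of (p : ℕ) (hp : 1 ≤ p) (s : ℤ) : ∃ c : ℕ, ∀ a : ℕ, (p : ℤ) ∣ (a : ℤ) + s ↔ a ≡ c [MOD p] := by
  refine ⟨((-s) % (p : ℤ)).toNat, fun a => ?_⟩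
  have hp0 : (0 : ℤ) < p := by exact_mod_cast hp
  have h1 := Int.emod_nonneg (-s) hp0.ne'
  have h2 : ((((-s) % (p : ℤ)).toNat : ℕ) : ℤ) = (-s) % p := Int.toNat_of_nonneg h1
  rw [← Int.natCast_modEq_iff, h2]
  have h3 : (-s) % (p : ℤ) ≡ -s [ZMOD p] := Int.mod_modEq _ _
  constructor
  · intro h
    have h4 : (a : ℤ) ≡ -s [ZMOD p] := by
      apply Int.ModEq.symm
      rw [Int.modEq_iff_dvd]
      have e : (a : ℤ) - -s = a + s := by ring
      rw [e]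
      exact h
    exact h4.trans h3.symm
  · intro h
    have h4 := (h.trans h3).symm
    rw [Int.modEq_iff_dvd] at h4
    have e : (a : ℤ) - -s = a + s := by ring
    rwa [e] at h4

lemma sum_ind (p : ℕ) (hp : 1 ≤ p) (s : ℤ) (A : ℕ) : |∑ a ∈ Icc 1 A, ind p s a - (A : ℝ) / p| ≤ 1 := by
  obtain ⟨c, hc⟩ := class_of p hp s
  have h := count_class A p c hp
  have e : ∑ a ∈ Icc 1 A, ind p s a = #((Icc 1 A).filter (fun n => n ≡ c [MOD p])) := by
    unfold ind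
    rw [← sum_filter, sum_const, nsmul_eq_mul, mul_one]
    congr 2
    apply filter_congr
    intro a _
    exact hc a
  rw [e]
  exact h

lemma sum_ind2 (p q : ℕ) (hp : 1 ≤ p) (hq : 1 ≤ q) (hpq : p.Coprime q) (s t : ℤ) (A : ℕ) :
    |∑ a ∈ Icc 1 A, ind p s a * ind q t a - (A : ℝ) / (p * q)| ≤ 1 := by
  obtain ⟨c, hc⟩ := class_of p hp s
  obtain ⟨c', hc'⟩ := class_of q hq t
  obtain ⟨w, hw1, hw2⟩ := Nat.chineseRemainder hpq c c'
  have h := count_class A (p * q) w (Nat.mul_pos hp hq)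
  have e : ∑ a ∈ Icc 1 A, ind p s a * ind q t a = #((Icc 1 A).filter (fun n => n ≡ w [MOD (p * q)])) := by
    have e1 : ∀ a ∈ Icc 1 A, ind p s a * ind q t a = if a ≡ w [MOD (p * q)] then (1 : ℝ) else 0 := by
      intro a _
      have h1 : a ≡ w [MOD (p * q)] ↔ ((p : ℤ) ∣ (a : ℤ) + s ∧ (q : ℤ) ∣ (a : ℤ) + t) := by
        rw [hc, hc', ← Nat.modEq_and_modEq_iff_modEq_mul hpq]
        constructor
        · rintro ⟨h1, h2⟩
          exact ⟨h1.trans hw1, h2.trans hw2⟩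
        · rintro ⟨h1, h2⟩
          exact ⟨h1.trans hw1.symm, h2.trans hw2.symm⟩
      unfold ind
      by_cases h2 : (p : ℤ) ∣ (a : ℤ) + s
      · by_cases h3 : (q : ℤ) ∣ (a : ℤ) + t
        · rw [if_pos h2, if_pos h3, if_pos (h1.2 ⟨h2, h3⟩), one_mul]
        · rw [if_neg h3, if_neg (fun h => h3 (h1.1 h).2), mul_zero]
      · rw [if_neg h2, if_neg (fun h => h2 (h1.1 h).1), zero_mul]
    rw [sum_congr rfl e1, ← sum_filter, sum_const, nsmul_eq_mul, mul_one]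
  rw [e]
  push_cast at h
  exact h

/-- one variable: the average of `1 - ind` -/
lemma avg1 (p : ℕ) (hp : 1 ≤ p) (s : ℤ) (A : ℕ) (hA : 1 ≤ A) :
    |(∑ a ∈ Icc 1 A, (1 - ind p s a)) / A - (1 - 1 / (p : ℝ))| ≤ 3 / A := by
  have hA0 : (0 : ℝ) < A := by exact_mod_cast hA
  have h := sum_ind p hp s A
  rw [sum_sub_distrib, sum_const, Nat.card_Icc, nsmul_eq_mul, mul_one]
  have e : (((A + 1 - 1 : ℕ) : ℝ) - ∑ a ∈ Icc 1 A, ind p s a) / A - (1 - 1 / (p : ℝ)) = -((∑ a ∈ Icc 1 A, ind p s a - (A : ℝ) / p)) / A := by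
    rw [Nat.add_sub_cancel]
    field_simp
    ring
  rw [e, abs_div, abs_neg, abs_of_pos hA0]
  exact div_le_div_of_nonneg_right (h.trans (by norm_num)) hA0.le

lemma avg2 (p q : ℕ) (hp : 1 ≤ p) (hq : 1 ≤ q) (hpq : p.Coprime q) (s t : ℤ) (A : ℕ) (hA : 1 ≤ A) :
    |(∑ a ∈ Icc 1 A, (1 - ind p s a) * (1 - ind q t a)) / A - (1 - 1 / (p : ℝ)) * (1 - 1 / (q : ℝ))| ≤ 3 / A := by
  have hA0 : (0 : ℝ) < A := by exact_mod_cast hA
  have hp0 : (0 : ℝ) < p := by exact_mod_cast hp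
  have hq0 : (0 : ℝ) < q := by exact_mod_cast hq
  have h1 := sum_ind p hp s A
  have h2 := sum_ind q hq t A
  have h3 := sum_ind2 p q hp hq hpq s t A
  have e1 : ∑ a ∈ Icc 1 A, (1 - ind p s a) * (1 - ind q t a) =
      A - ∑ a ∈ Icc 1 A, ind p s a - ∑ a ∈ Icc 1 A, ind q t a + ∑ a ∈ Icc 1 A, ind p s a * ind q t a := by
    have e2 : (A : ℝ) = ∑ a ∈ Icc 1 A, (1 : ℝ) := by
      rw [sum_const, Nat.card_Icc, nsmul_eq_mul, mul_one, Nat.add_sub_cancel]
    rw [e2, ← sum_sub_distrib, ← sum_sub_distrib, ← sum_add_distrib]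
    apply sum_congr rfl
    intro a _
    ring
  have e : (∑ a ∈ Icc 1 A, (1 - ind p s a) * (1 - ind q t a)) / A - (1 - 1 / (p : ℝ)) * (1 - 1 / (q : ℝ)) =
      (-(∑ a ∈ Icc 1 A, ind p s a - (A : ℝ) / p) - (∑ a ∈ Icc 1 A, ind q t a - (A : ℝ) / q) +
        (∑ a ∈ Icc 1 A, ind p s a * ind q t a - (A : ℝ) / (p * q))) / A := by
    rw [e1]
    field_simp
    ring
  rw [e, abs_div, abs_of_pos hA0]
  apply div_le_div_of_nonneg_right _ hA0.le
  rw [abs_le] at h1 h2 h3 ⊢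
  constructor <;> linarith [h1.1, h1.2, h2.1, h2.2, h3.1, h3.2]

variable {k : ℕ}

/-- all values prime to `p` -/
noncomputable def uu (F : Fin k → ℤ[X]) (p n : ℕ) (a : Fin k → ℕ) : ℝ := ∏ i, (1 - ind p ((F i).eval (n : ℤ)) (a i))

/-- the average over the box of a product -/
lemma box_avg (A : Fin k → ℕ) (g : Fin k → ℕ → ℝ) :
    (∑ a ∈ Bx A, ∏ i, g i (a i)) / ∏ i, (A i : ℝ) = ∏ i, ((∑ m ∈ Icc 1 (A i), g i m) / A i) := by
  unfold Bx
  rw [← Finset.prod_univ_sum, prod_div_distrib]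

lemma card_Bx (A : Fin k → ℕ) : (#(Bx A) : ℝ) = ∏ i, (A i : ℝ) := by
  unfold Bx
  rw [Fintype.card_piFinset]
  push_cast
  apply prod_congr rfl
  intro i _
  rw [Nat.card_Icc, Nat.add_sub_cancel]

lemma avg_box1 (F : Fin k → ℤ[X]) (A : Fin k → ℕ) (M : ℝ) (hM : 0 < M) (hA : ∀ i, M ≤ A i) (p : ℕ) (hp : 1 ≤ p) (n : ℕ) :
    |(∑ a ∈ Bx A, uu F p n a) / ∏ i, (A i : ℝ) - (1 - 1 / (p : ℝ)) ^ k| ≤ 3 * k / M := by
  have hA0 : ∀ i, (0 : ℝ) < A i := fun i => lt_of_lt_of_le hM (hA i)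
  have hA1 : ∀ i, 1 ≤ A i := fun i => by
    have := hA0 i
    exact_mod_cast (by exact_mod_cast this : 0 < A i)
  have hp1 : (1 : ℝ) ≤ p := by exact_mod_cast hp
  have hr0 : 0 ≤ 1 - 1 / (p : ℝ) := by
    rw [sub_nonneg, div_le_one (by linarith)]
    exact hp1
  have hr1 : 1 - 1 / (p : ℝ) ≤ 1 := by
    have : 0 ≤ 1 / (p : ℝ) := by positivity
    linarith
  unfold uu
  rw [box_avg A (fun i m => 1 - ind p ((F i).eval (n : ℤ)) m)]
  have e : (1 - 1 / (p : ℝ)) ^ k = ∏ _i : Fin k, (1 - 1 / (p : ℝ)) := by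
    rw [prod_const, card_univ, Fintype.card_fin]
  rw [e]
  refine (prod_diff univ _ _ (fun i _ => ?_) (fun i _ => ⟨hr0, hr1⟩)).trans ?_
  · constructor
    · apply div_nonneg (sum_nonneg fun a _ => ?_) (hA0 i).le
      have := (ind01 p ((F i).eval (n : ℤ)) a).2
      linarith
    · rw [div_le_one (hA0 i)]
      calc ∑ m ∈ Icc 1 (A i), (1 - ind p ((F i).eval (n : ℤ)) m) ≤ ∑ m ∈ Icc 1 (A i), (1 : ℝ) := by
            apply sum_le_sum
            intro a _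
            have := (ind01 p ((F i).eval (n : ℤ)) a).1
            linarith
        _ = A i := by rw [sum_const, Nat.card_Icc, nsmul_eq_mul, mul_one, Nat.add_sub_cancel]
  · calc _ ≤ ∑ _i : Fin k, 3 / M := by
          apply sum_le_sum
          intro i _
          refine (avg1 p hp _ (A i) (hA1 i)).trans ?_
          exact div_le_div_of_nonneg_left (by norm_num) hM (hA i)
      _ = 3 * k / M := by
          rw [sum_const, card_univ, Fintype.card_fin, nsmul_eq_mul]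
          ring

lemma avg_box2 (F : Fin k → ℤ[X]) (A : Fin k → ℕ) (M : ℝ) (hM : 0 < M) (hA : ∀ i, M ≤ A i) (p q : ℕ) (hp : 1 ≤ p) (hq : 1 ≤ q)
    (hpq : p.Coprime q) (n m : ℕ) :
    |(∑ a ∈ Bx A, uu F p n a * uu F q m a) / ∏ i, (A i : ℝ) - ((1 - 1 / (p : ℝ)) * (1 - 1 / (q : ℝ))) ^ k| ≤ 3 * k / M := by
  have hA0 : ∀ i, (0 : ℝ) < A i := fun i => lt_of_lt_of_le hM (hA i)
  have hA1 : ∀ i, 1 ≤ A i := fun i => by
    have := hA0 i
    exact_mod_cast (by exact_mod_cast this : 0 < A i)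
  have hr : ∀ p : ℕ, 1 ≤ p → 0 ≤ 1 - 1 / (p : ℝ) ∧ 1 - 1 / (p : ℝ) ≤ 1 := by
    intro p hp
    have hp1 : (1 : ℝ) ≤ p := by exact_mod_cast hp
    constructor
    · rw [sub_nonneg, div_le_one (by linarith)]
      exact hp1
    · have : 0 ≤ 1 / (p : ℝ) := by positivity
      linarith
  have e0 : ∀ a, uu F p n a * uu F q m a = ∏ i, ((1 - ind p ((F i).eval (n : ℤ)) (a i)) * (1 - ind q ((F i).eval (m : ℤ)) (a i))) := by
    intro a
    unfold uu
    rw [prod_mul_distrib]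
  simp only [e0]
  rw [box_avg A (fun i j => (1 - ind p ((F i).eval (n : ℤ)) j) * (1 - ind q ((F i).eval (m : ℤ)) j))]
  have e : ((1 - 1 / (p : ℝ)) * (1 - 1 / (q : ℝ))) ^ k = ∏ _i : Fin k, ((1 - 1 / (p : ℝ)) * (1 - 1 / (q : ℝ))) := by
    rw [prod_const, card_univ, Fintype.card_fin]
  rw [e]
  refine (prod_diff univ _ _ (fun i _ => ?_) (fun i _ => ⟨mul_nonneg (hr p hp).1 (hr q hq).1, mul_le_one₀ (hr p hp).2 (hr q hq).1 (hr q hq).2⟩)).trans ?_
  · constructor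
    · apply div_nonneg (sum_nonneg fun a _ => ?_) (hA0 i).le
      have h1 := (ind01 p ((F i).eval (n : ℤ)) a).2
      have h2 := (ind01 q ((F i).eval (m : ℤ)) a).2
      exact mul_nonneg (by linarith) (by linarith)
    · rw [div_le_one (hA0 i)]
      calc ∑ j ∈ Icc 1 (A i), ((1 - ind p ((F i).eval (n : ℤ)) j) * (1 - ind q ((F i).eval (m : ℤ)) j)) ≤ ∑ j ∈ Icc 1 (A i), (1 : ℝ) := by
            apply sum_le_sum
            intro a _
            have h1 := ind01 p ((F i).eval (n : ℤ)) a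
            have h2 := ind01 q ((F i).eval (m : ℤ)) a
            exact mul_le_one₀ (by linarith [h1.1]) (by linarith [h2.2]) (by linarith [h2.1])
        _ = A i := by rw [sum_const, Nat.card_Icc, nsmul_eq_mul, mul_one, Nat.add_sub_cancel]
  · calc _ ≤ ∑ _i : Fin k, 3 / M := by
          apply sum_le_sum
          intro i _
          refine (avg2 p q hp hq hpq _ _ (A i) (hA1 i)).trans ?_
          exact div_le_div_of_nonneg_left (by norm_num) hM (hA i)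
      _ = 3 * k / M := by
          rw [sum_const, card_univ, Fintype.card_fin, nsmul_eq_mul]
          ring

/-- the deviation of the number of roots from its mean value -/
noncomputable def XX (F : Fin k → ℤ[X]) (p : ℕ) (a : Fin k → ℕ) : ℝ := (om (Hp F a) p : ℝ) - p * (1 - (1 - 1 / (p : ℝ)) ^ k)

lemma XX_eq (F : Fin k → ℤ[X]) (p : ℕ) (hp : p.Prime) (a : Fin k → ℕ) :
    XX F p a = ∑ n ∈ range p, ((1 - 1 / (p : ℝ)) ^ k - uu F p n a) := by
  have h1 : ∀ n : ℕ, (1 : ℝ) - uu F p n a = if (p : ℤ) ∣ (Hp F a).eval (n : ℤ) then 1 else 0 := by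
    intro n
    rw [Hp_eval]
    have hpi : Prime (p : ℤ) := Nat.prime_iff_prime_int.1 hp
    by_cases h : (p : ℤ) ∣ ∏ i, ((a i : ℤ) + (F i).eval (n : ℤ))
    · rw [if_pos h]
      rw [Prime.dvd_finset_prod_iff hpi] at h
      obtain ⟨i, _, hi⟩ := h
      unfold uu
      rw [prod_eq_zero (mem_univ i), sub_zero]
      unfold ind
      rw [if_pos hi, sub_self]
    · rw [if_neg h]
      rw [Prime.dvd_finset_prod_iff hpi] at h
      push Not at h
      unfold uu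
      rw [prod_eq_one, sub_self]
      intro i _
      unfold ind
      rw [if_neg (h i (mem_univ i)), sub_zero]
  have h2 : (om (Hp F a) p : ℝ) = ∑ n ∈ range p, ((1 : ℝ) - uu F p n a) := by
    rw [sum_congr rfl fun n _ => h1 n, ← sum_filter, sum_const, nsmul_eq_mul, mul_one]
    rfl
  unfold XX
  rw [h2]
  have h3 : (p : ℝ) * (1 - (1 - 1 / (p : ℝ)) ^ k) = ∑ _n ∈ range p, (1 - (1 - 1 / (p : ℝ)) ^ k) := by
    rw [sum_const, card_range, nsmul_eq_mul]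
  rw [h3, ← sum_sub_distrib]
  apply sum_congr rfl
  intro n _
  ring

/-- the correlation at two primes -/
lemma cross (F : Fin k → ℤ[X]) (A : Fin k → ℕ) (M : ℝ) (hM : 0 < M) (hA : ∀ i, M ≤ A i) (p q : ℕ) (hp : p.Prime) (hq : q.Prime)
    (hpq : p ≠ q) : |(∑ a ∈ Bx A, XX F p a * XX F q a) / ∏ i, (A i : ℝ)| ≤ p * q * (9 * k / M) := by
  have hA0 : ∀ i, (0 : ℝ) < A i := fun i => lt_of_lt_of_le hM (hA i)
  have hPA : (0 : ℝ) < ∏ i, (A i : ℝ) := prod_pos fun i _ => hA0 i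
  obtain ⟨α, hα⟩ : ∃ α : ℝ, α = (1 - 1 / (p : ℝ)) ^ k := ⟨_, rfl⟩
  obtain ⟨β, hβ⟩ : ∃ β : ℝ, β = (1 - 1 / (q : ℝ)) ^ k := ⟨_, rfl⟩
  have hr : ∀ p : ℕ, 1 ≤ p → 0 ≤ 1 - 1 / (p : ℝ) ∧ 1 - 1 / (p : ℝ) ≤ 1 := by
    intro p hp
    have hp1 : (1 : ℝ) ≤ p := by exact_mod_cast hp
    constructor
    · rw [sub_nonneg, div_le_one (by linarith)]
      exact hp1
    · have : 0 ≤ 1 / (p : ℝ) := by positivity
      linarith
  have hα0 : 0 ≤ α := by rw [hα]; exact pow_nonneg (hr p hp.one_lt.le).1 _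
  have hα1 : α ≤ 1 := by rw [hα]; exact pow_le_one₀ (hr p hp.one_lt.le).1 (hr p hp.one_lt.le).2
  have hβ0 : 0 ≤ β := by rw [hβ]; exact pow_nonneg (hr q hq.one_lt.le).1 _
  have hβ1 : β ≤ 1 := by rw [hβ]; exact pow_le_one₀ (hr q hq.one_lt.le).1 (hr q hq.one_lt.le).2
  have h1 : (∑ a ∈ Bx A, XX F p a * XX F q a) / ∏ i, (A i : ℝ) =
      ∑ n ∈ range p, ∑ m ∈ range q, (∑ a ∈ Bx A, (α - uu F p n a) * (β - uu F q m a)) / ∏ i, (A i : ℝ) := by
    have h2 : ∀ a ∈ Bx A, XX F p a * XX F q a = ∑ n ∈ range p, ∑ m ∈ range q, (α - uu F p n a) * (β - uu F q m a) := by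
      intro a _
      rw [XX_eq F p hp, XX_eq F q hq, sum_mul_sum, hα, hβ]
    rw [sum_congr rfl h2, sum_comm, sum_div]
    apply sum_congr rfl
    intro n _
    rw [sum_comm, sum_div]
  rw [h1]
  have h3 : ∀ n m : ℕ, |(∑ a ∈ Bx A, (α - uu F p n a) * (β - uu F q m a)) / ∏ i, (A i : ℝ)| ≤ 9 * k / M := by
    intro n m
    have b1 := avg_box1 F A M hM hA p hp.one_lt.le n
    have b2 := avg_box1 F A M hM hA q hq.one_lt.le m
    have b3 := avg_box2 F A M hM hA p q hp.one_lt.le hq.one_lt.le ((Nat.coprime_primes hp hq).2 hpq) n m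
    rw [mul_pow] at b3
    rw [← hα] at b1 b3
    rw [← hβ] at b2 b3
    obtain ⟨U1, hU1⟩ : ∃ U1 : ℝ, U1 = (∑ a ∈ Bx A, uu F p n a) / ∏ i, (A i : ℝ) := ⟨_, rfl⟩
    obtain ⟨U2, hU2⟩ : ∃ U2 : ℝ, U2 = (∑ a ∈ Bx A, uu F q m a) / ∏ i, (A i : ℝ) := ⟨_, rfl⟩
    obtain ⟨U3, hU3⟩ : ∃ U3 : ℝ, U3 = (∑ a ∈ Bx A, uu F p n a * uu F q m a) / ∏ i, (A i : ℝ) := ⟨_, rfl⟩
    rw [← hU1] at b1
    rw [← hU2] at b2
    rw [← hU3] at b3
    have e : (∑ a ∈ Bx A, (α - uu F p n a) * (β - uu F q m a)) / ∏ i, (A i : ℝ) = -(α * (U2 - β)) - β * (U1 - α) + (U3 - α * β) := by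
      have e1 : ∑ a ∈ Bx A, (α - uu F p n a) * (β - uu F q m a) =
          #(Bx A) * (α * β) - α * ∑ a ∈ Bx A, uu F q m a - β * ∑ a ∈ Bx A, uu F p n a + ∑ a ∈ Bx A, uu F p n a * uu F q m a := by
        rw [mul_sum, mul_sum, ← nsmul_eq_mul, ← sum_const, ← sum_sub_distrib, ← sum_sub_distrib, ← sum_add_distrib]
        apply sum_congr rfl
        intro a _
        ring
      rw [e1, card_Bx, hU1, hU2, hU3]
      field_simp
      ring
    rw [e]
    have c1 : |α * (U2 - β)| ≤ 3 * k / M := by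
      rw [abs_mul, abs_of_nonneg hα0]
      exact (mul_le_of_le_one_left (abs_nonneg _) hα1).trans b2
    have c2 : |β * (U1 - α)| ≤ 3 * k / M := by
      rw [abs_mul, abs_of_nonneg hβ0]
      exact (mul_le_of_le_one_left (abs_nonneg _) hβ1).trans b1
    have e9 : 9 * (k : ℝ) / M = 3 * k / M + 3 * k / M + 3 * k / M := by ring
    rw [e9]
    rw [abs_le] at c1 c2 b3 ⊢
    constructor <;> linarith [c1.1, c1.2, c2.1, c2.2, b3.1, b3.2]
  calc _ ≤ ∑ n ∈ range p, |∑ m ∈ range q, (∑ a ∈ Bx A, (α - uu F p n a) * (β - uu F q m a)) / ∏ i, (A i : ℝ)| := abs_sum_le_sum_abs _ _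
    _ ≤ ∑ n ∈ range p, ∑ m ∈ range q, |(∑ a ∈ Bx A, (α - uu F p n a) * (β - uu F q m a)) / ∏ i, (A i : ℝ)| :=
        sum_le_sum fun n _ => abs_sum_le_sum_abs _ _
    _ ≤ ∑ _n ∈ range p, ∑ _m ∈ range q, (9 * (k : ℝ) / M) := sum_le_sum fun n _ => sum_le_sum fun m _ => h3 n m
    _ = p * q * (9 * k / M) := by
        rw [sum_const, sum_const, card_range, card_range, nsmul_eq_mul, nsmul_eq_mul]
        ring

/-- roots modulo a prime -/
lemma roots_mod (H : ℤ[X]) (p : ℕ) (hp : p.Prime) (i : ℕ) (hi : ¬ (p : ℤ) ∣ H.coeff i) :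
    #((range p).filter (fun n : ℕ => (p : ℤ) ∣ H.eval (n : ℤ))) ≤ H.natDegree := by
  have : Fact p.Prime := ⟨hp⟩
  set Hp := H.map (Int.castRingHom (ZMod p)) with hHp
  have h : Hp ≠ 0 := by
    intro h
    apply hi
    have h1 : Hp.coeff i = 0 := by rw [h, coeff_zero]
    rw [hHp, coeff_map] at h1
    exact (ZMod.intCast_zmod_eq_zero_iff_dvd _ p).1 (by simpa using h1)
  have h1 : #((range p).filter (fun n : ℕ => (p : ℤ) ∣ H.eval (n : ℤ))) ≤ #(Hp.roots.toFinset) := by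
    refine card_le_card_of_injOn (fun n : ℕ => (n : ZMod p)) ?_ ?_
    · intro n hn
      rw [mem_coe, mem_filter] at hn
      have h2 := (Pool.Agent.H544.LD.dvd_eval_zmod H p _).1 hn.2
      rw [mem_coe, Multiset.mem_toFinset, mem_roots h, IsRoot.def]
      push_cast at h2
      exact h2
    · intro n hn n' hn' hnn
      rw [mem_coe, mem_filter, mem_range] at hn hn'
      simp only at hnn
      have h3 := ZMod.val_cast_of_lt hn.1
      have h4 := ZMod.val_cast_of_lt hn'.1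
      rw [← h3, ← h4, hnn]
  refine h1.trans ((Multiset.toFinset_card_le _).trans ((card_roots' Hp).trans ?_))
  exact natDegree_map_le

/-- the roots of the product at a prime which does not divide the leading coefficients -/
lemma om_few (F : Fin k → ℤ[X]) (a : Fin k → ℕ) (p : ℕ) (hp : p.Prime) (hd : ∀ i, 1 ≤ (F i).natDegree)
    (h : ∀ i, ¬ (p : ℤ) ∣ (F i).leadingCoeff) : om (Hp F a) p ≤ ∑ i, (F i).natDegree := by
  classical
  have hpi : Prime (p : ℤ) := Nat.prime_iff_prime_int.1 hp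
  have h1 : om (Hp F a) p ≤ ∑ i, om (C (a i : ℤ) + F i) p := by
    unfold om
    refine le_trans (card_le_card (t := univ.biUnion (fun i => (range p).filter (fun n : ℕ => (p : ℤ) ∣ (C (a i : ℤ) + F i).eval (n : ℤ)))) ?_) card_biUnion_le
    intro n hn
    rw [mem_filter, Hp_eval, Prime.dvd_finset_prod_iff hpi] at hn
    obtain ⟨hn1, i, _, hi⟩ := hn
    rw [mem_biUnion]
    refine ⟨i, mem_univ _, mem_filter.2 ⟨hn1, ?_⟩⟩
    rw [eval_add, eval_C]
    exact hi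
  refine h1.trans (sum_le_sum fun i _ => ?_)
  refine (roots_mod (C (a i : ℤ) + F i) p hp (F i).natDegree ?_).trans ((natDegree_add_le _ _).trans ?_)
  · rw [coeff_add, coeff_C, if_neg (by have := hd i; omega), zero_add]
    exact h i
  · simp

lemma mean_le (p : ℕ) (hp : 1 ≤ p) : 0 ≤ (p : ℝ) * (1 - (1 - 1 / (p : ℝ)) ^ k) ∧ (p : ℝ) * (1 - (1 - 1 / (p : ℝ)) ^ k) ≤ k := by
  have hp0 : (0 : ℝ) < p := by exact_mod_cast hp
  have hp1 : (1 : ℝ) ≤ p := by exact_mod_cast hp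
  have h0 : 0 ≤ 1 - 1 / (p : ℝ) := by
    rw [sub_nonneg, div_le_one hp0]
    exact hp1
  have h1 : 1 - 1 / (p : ℝ) ≤ 1 := by
    have : 0 ≤ 1 / (p : ℝ) := by positivity
    linarith
  constructor
  · apply mul_nonneg hp0.le
    have := pow_le_one₀ (n := k) h0 h1
    linarith
  · have h2 := one_add_mul_le_pow (a := -(1 / (p : ℝ))) (by linarith) k
    have h3 : (1 - 1 / (p : ℝ)) ^ k = (1 + -(1 / (p : ℝ))) ^ k := by rw [← sub_eq_add_neg]
    rw [h3]
    calc (p : ℝ) * (1 - (1 + -(1 / (p : ℝ))) ^ k) ≤ p * (1 - (1 + k * -(1 / (p : ℝ)))) := by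
          apply mul_le_mul_of_nonneg_left _ hp0.le
          linarith
      _ = k := by
          field_simp
          ring

lemma XX_abs (F : Fin k → ℤ[X]) (a : Fin k → ℕ) (p : ℕ) (hp : p.Prime) (hd : ∀ i, 1 ≤ (F i).natDegree)
    (h : ∀ i, ¬ (p : ℤ) ∣ (F i).leadingCoeff) : |XX F p a| ≤ ∑ i, (F i).natDegree + k := by
  have h1 : (om (Hp F a) p : ℝ) ≤ ∑ i, ((F i).natDegree : ℝ) := by exact_mod_cast om_few F a p hp hd h
  have h2 := mean_le (k := k) p hp.one_lt.le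
  have h3 : (0 : ℝ) ≤ om (Hp F a) p := Nat.cast_nonneg _
  have h4 : (0 : ℝ) ≤ k := Nat.cast_nonneg _
  unfold XX
  push_cast
  rw [abs_le]
  constructor <;> linarith [h2.1, h2.2]

/-- **The second moment.** -/
theorem second (F : Fin k → ℤ[X]) (hd : ∀ i, 1 ≤ (F i).natDegree) (A : Fin k → ℕ) (M : ℝ) (hM : 0 < M) (hA : ∀ i, M ≤ A i)
    (z w : ℕ) (hz : 1 ≤ z) (hzw : z ≤ w) (S : Finset ℕ) (hS : ∀ p ∈ S, p.Prime ∧ z < p ∧ p ≤ w ∧ ∀ i, ¬ (p : ℤ) ∣ (F i).leadingCoeff) :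
    (#((Bx A).filter (fun a => ¬ |∑ p ∈ S, XX F p a / p| ≤ 1)) : ℝ) ≤
      (∏ i, (A i : ℝ)) * ((∑ i, ((F i).natDegree : ℝ) + k) ^ 2 / z + 9 * k * (w : ℝ) ^ 2 / M) := by
  have hA0 : ∀ i, (0 : ℝ) < A i := fun i => lt_of_lt_of_le hM (hA i)
  have hPA : (0 : ℝ) < ∏ i, (A i : ℝ) := prod_pos fun i _ => hA0 i
  obtain ⟨K, hK⟩ : ∃ K : ℝ, K = ∑ i, ((F i).natDegree : ℝ) + k := ⟨_, rfl⟩
  obtain ⟨P, hP⟩ : ∃ P : ℝ, P = ∏ i, (A i : ℝ) := ⟨_, rfl⟩
  rw [← hK, ← hP]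
  rw [← hP] at hPA
  have hz0 : (0 : ℝ) < z := by exact_mod_cast hz
  have hK0 : 0 ≤ K := by rw [hK]; positivity
  have h1 : (#((Bx A).filter (fun a => ¬ |∑ p ∈ S, XX F p a / p| ≤ 1)) : ℝ) ≤ ∑ a ∈ Bx A, (∑ p ∈ S, XX F p a / p) ^ 2 := by
    calc (#((Bx A).filter (fun a => ¬ |∑ p ∈ S, XX F p a / p| ≤ 1)) : ℝ) = ∑ a ∈ (Bx A).filter (fun a => ¬ |∑ p ∈ S, XX F p a / p| ≤ 1), (1 : ℝ) := by
          rw [sum_const, nsmul_eq_mul, mul_one]
      _ ≤ ∑ a ∈ (Bx A).filter (fun a => ¬ |∑ p ∈ S, XX F p a / p| ≤ 1), (∑ p ∈ S, XX F p a / p) ^ 2 := by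
          apply sum_le_sum
          intro a ha
          rw [mem_filter, not_le] at ha
          rw [← sq_abs]
          exact one_le_pow₀ ha.2.le
      _ ≤ _ := sum_le_sum_of_subset_of_nonneg (filter_subset _ _) (fun _ _ _ => sq_nonneg _)
  refine h1.trans ?_
  have h2 : ∑ a ∈ Bx A, (∑ p ∈ S, XX F p a / p) ^ 2 = ∑ p ∈ S, ∑ q ∈ S, (∑ a ∈ Bx A, XX F p a * XX F q a) / (p * q) := by
    have e : ∀ a ∈ Bx A, (∑ p ∈ S, XX F p a / p) ^ 2 = ∑ p ∈ S, ∑ q ∈ S, XX F p a * XX F q a / (p * q) := by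
      intro a _
      rw [sq, sum_mul_sum]
      apply sum_congr rfl
      intro p _
      apply sum_congr rfl
      intro q _
      rw [div_mul_div_comm]
    rw [sum_congr rfl e, sum_comm]
    apply sum_congr rfl
    intro p _
    rw [sum_comm]
    apply sum_congr rfl
    intro q _
    rw [sum_div]
  rw [h2]
  have h3 : ∀ p ∈ S, ∀ q ∈ S, (∑ a ∈ Bx A, XX F p a * XX F q a) / (p * q) ≤ P * (9 * k / M) + if q = p then P * (K ^ 2 * ((p : ℝ) ^ 2)⁻¹) else 0 := by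
    intro p hp q hq
    obtain ⟨hp1, hp2, hp3, hp4⟩ := hS p hp
    obtain ⟨hq1, hq2, hq3, hq4⟩ := hS q hq
    have hp0 : (0 : ℝ) < p := by exact_mod_cast hp1.pos
    have hq0 : (0 : ℝ) < q := by exact_mod_cast hq1.pos
    by_cases hpq : q = p
    · rw [if_pos hpq]
      subst hpq
      have h4 : ∑ a ∈ Bx A, XX F q a * XX F q a ≤ P * K ^ 2 := by
        calc ∑ a ∈ Bx A, XX F q a * XX F q a ≤ ∑ _a ∈ Bx A, K ^ 2 := by
              apply sum_le_sum
              intro a _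
              rw [← sq, ← sq_abs]
              apply pow_le_pow_left₀ (abs_nonneg _)
              have := XX_abs F a q hq1 hd hq4
              rw [hK]
              push_cast at this
              exact this
          _ = P * K ^ 2 := by rw [sum_const, nsmul_eq_mul, card_Bx, hP]
      have h5 : (∑ a ∈ Bx A, XX F q a * XX F q a) / (q * q) ≤ P * (K ^ 2 * ((q : ℝ) ^ 2)⁻¹) := by
        rw [div_le_iff₀ (by positivity)]
        refine h4.trans (le_of_eq ?_)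
        field_simp
      have h6 : 0 ≤ P * (9 * k / M) := by positivity
      linarith
    · rw [if_neg hpq, add_zero]
      have h4 := cross F A M hM hA p q hp1 hq1 (fun h => hpq h.symm)
      rw [← hP, abs_div, abs_of_pos hPA, div_le_iff₀ hPA] at h4
      rw [div_le_iff₀ (by positivity)]
      refine (le_abs_self _).trans (h4.trans (le_of_eq ?_))
      ring
  have h7 : ∑ p ∈ S, ((p : ℝ) ^ 2)⁻¹ ≤ (z : ℝ)⁻¹ := by
    calc ∑ p ∈ S, ((p : ℝ) ^ 2)⁻¹ ≤ ∑ p ∈ Ioc z w, ((p : ℝ) ^ 2)⁻¹ := by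
          apply sum_le_sum_of_subset_of_nonneg
          · intro p hp
            obtain ⟨_, hp2, hp3, _⟩ := hS p hp
            exact mem_Ioc.2 ⟨hp2, hp3⟩
          · intro p _ _
            positivity
      _ ≤ (z : ℝ)⁻¹ - (w : ℝ)⁻¹ := sum_Ioc_inv_sq_le_sub (by omega) hzw
      _ ≤ (z : ℝ)⁻¹ := by
          have : (0 : ℝ) ≤ (w : ℝ)⁻¹ := by positivity
          linarith
  have h8 : (#S : ℝ) ≤ w := by
    have : #S ≤ #(Ioc z w) := card_le_card fun p hp => by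
      obtain ⟨_, hp2, hp3, _⟩ := hS p hp
      exact mem_Ioc.2 ⟨hp2, hp3⟩
    rw [Nat.card_Ioc] at this
    exact_mod_cast this.trans (Nat.sub_le _ _)
  calc _ ≤ ∑ p ∈ S, ∑ q ∈ S, (P * (9 * k / M) + if q = p then P * (K ^ 2 * ((p : ℝ) ^ 2)⁻¹) else 0) :=
        sum_le_sum fun p hp => sum_le_sum fun q hq => h3 p hp q hq
    _ = ∑ p ∈ S, (#S * (P * (9 * k / M)) + P * (K ^ 2 * ((p : ℝ) ^ 2)⁻¹)) := by
        apply sum_congr rfl
        intro p hp
        rw [sum_add_distrib, sum_const, nsmul_eq_mul, sum_ite_eq' S p, if_pos hp]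
    _ = #S * (#S * (P * (9 * k / M))) + P * K ^ 2 * ∑ p ∈ S, ((p : ℝ) ^ 2)⁻¹ := by
        rw [sum_add_distrib, sum_const, nsmul_eq_mul, mul_sum]
        congr 1
        apply sum_congr rfl
        intro p _
        ring
    _ ≤ w * (w * (P * (9 * k / M))) + P * K ^ 2 * (z : ℝ)⁻¹ := by
        apply add_le_add
        · have : 0 ≤ P * (9 * k / M) := by positivity
          gcongr
        · gcongr
    _ = _ := by
        field_simp
        ring

end Pool.Agent.H544.ES
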