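import Mathlib
import Pool.Graph.R_seed8.W123.RU.PolyV
import Pool.Graph.R_seed8.Helper923.HMertens

/-!
Comparison of the sieve products at different levels.
-/

set_option autoImplicit false

namespace Pool.Agent.H544.ES
open Finset Filter
open Pool.Agent.H373R2.T7 (pz mem_pz nuB PerB)
open Pool.Agent.W123.RP (Vq)
open Pool.Agent.W123.RU.Poly (Vq_low Vq_up)
open Pool.Agent.Helper923.HMertens (mertens_ratio)

/-- the sum of the densities -/
noncomputable def SS (Q : ℕ → ℕ → Prop) (y : ℕ) : ℝ := ∑ p ∈ pz y, (nuB Q p : ℝ) / p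

lemma SS_sub (Q : ℕ → ℕ → Prop) (a b : ℕ) (hab : a ≤ b) : SS Q b - SS Q a = ∑ p ∈ (Ioc a b).filter Nat.Prime, (nuB Q p : ℝ) / p := by
  have h1 : pz b = pz a ∪ (Ioc a b).filter Nat.Prime := by
    ext p
    rw [mem_union, mem_pz, mem_pz, mem_filter, mem_Ioc]
    constructor
    · rintro ⟨h1, h2⟩
      rcases Nat.lt_or_ge a p with h | h
      · exact Or.inr ⟨⟨h, h1⟩, h2⟩
      · exact Or.inl ⟨h, h2⟩
    · rintro (⟨h1, h2⟩ | ⟨⟨h1, h2⟩, h3⟩)
      · exact ⟨h1.trans hab, h2⟩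
      · exact ⟨h2, h3⟩
  have h2 : Disjoint (pz a) ((Ioc a b).filter Nat.Prime) := by
    rw [disjoint_left]
    intro p hp hp'
    rw [mem_pz] at hp
    rw [mem_filter, mem_Ioc] at hp'
    omega
  unfold SS
  rw [h1, sum_union h2]
  ring

lemma SS_mono (Q : ℕ → ℕ → Prop) (a b : ℕ) (hab : a ≤ b) : SS Q a ≤ SS Q b := by
  have h := SS_sub Q a b hab
  have : 0 ≤ ∑ p ∈ (Ioc a b).filter Nat.Prime, (nuB Q p : ℝ) / p := sum_nonneg fun p _ => by positivity
  linarith

/-- the trivial bound -/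
lemma SS_triv (c : ℕ) : ∃ C : ℝ, 0 ≤ C ∧ ∀ (Q : ℕ → ℕ → Prop), PerB Q c → ∀ a b : ℕ, 2 ≤ a → a ≤ b → ∀ t : ℝ, 1 ≤ t →
    Real.log b ≤ t * Real.log a → SS Q b - SS Q a ≤ c * (Real.log t + C) := by
  obtain ⟨C, hC0, hC⟩ := mertens_ratio
  have hl2 : (0 : ℝ) < Real.log 2 := Real.log_pos (by norm_num)
  refine ⟨C / Real.log 2, by positivity, fun Q hQ a b ha hab t ht hlog => ?_⟩
  rw [SS_sub Q a b hab]
  have h1 := hC a b ha hab
  have hla : Real.log 2 ≤ Real.log a := Real.log_le_log (by norm_num) (by exact_mod_cast ha)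
  have hla0 : 0 < Real.log a := by linarith
  have hlb0 : 0 < Real.log b := Real.log_pos (by exact_mod_cast (by omega : 1 < b))
  have h2 : Real.log (Real.log b / Real.log a) ≤ Real.log t := by
    apply Real.log_le_log (by positivity)
    rw [div_le_iff₀ hla0]
    exact hlog
  have h3 : C / Real.log a ≤ C / Real.log 2 := div_le_div_of_nonneg_left hC0 hl2 hla
  have h4 : ∑ p ∈ (Ioc a b).filter Nat.Prime, (1 : ℝ) / p ≤ Real.log t + C / Real.log 2 := by
    have := (abs_le.1 h1).2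
    linarith
  calc ∑ p ∈ (Ioc a b).filter Nat.Prime, (nuB Q p : ℝ) / p ≤ ∑ p ∈ (Ioc a b).filter Nat.Prime, c * ((1 : ℝ) / p) := by
        apply sum_le_sum
        intro p hp
        rw [mem_filter] at hp
        have h5 : (nuB Q p : ℝ) ≤ c := by exact_mod_cast hQ.few p hp.2
        have hp0 : (0 : ℝ) < p := by exact_mod_cast hp.2.pos
        rw [← mul_div_assoc, mul_one]
        exact div_le_div_of_nonneg_right h5 hp0.le
    _ = c * ∑ p ∈ (Ioc a b).filter Nat.Prime, (1 : ℝ) / p := by rw [mul_sum]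
    _ ≤ _ := mul_le_mul_of_nonneg_left h4 (Nat.cast_nonneg _)

/-- the mean value -/
lemma SS_mean (k : ℕ) : ∃ C : ℝ, 0 ≤ C ∧ ∀ (Q : ℕ → ℕ → Prop) (z w : ℕ), 2 ≤ z → z ≤ w →
    |∑ p ∈ (Ioc z w).filter Nat.Prime, ((nuB Q p : ℝ) - k) / p| ≤ 2 →
    |SS Q w - SS Q z - k * Real.log (Real.log w / Real.log z)| ≤ C := by
  obtain ⟨C, hC0, hC⟩ := mertens_ratio
  have hl2 : (0 : ℝ) < Real.log 2 := Real.log_pos (by norm_num)
  refine ⟨2 + k * (C / Real.log 2), by positivity, fun Q z w hz hzw h => ?_⟩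
  rw [SS_sub Q z w hzw]
  have h1 := hC z w hz hzw
  have hla : Real.log 2 ≤ Real.log z := Real.log_le_log (by norm_num) (by exact_mod_cast hz)
  have h3 : C / Real.log z ≤ C / Real.log 2 := div_le_div_of_nonneg_left hC0 hl2 hla
  have e : ∑ p ∈ (Ioc z w).filter Nat.Prime, (nuB Q p : ℝ) / p - k * Real.log (Real.log w / Real.log z) =
      ∑ p ∈ (Ioc z w).filter Nat.Prime, ((nuB Q p : ℝ) - k) / p + k * (∑ p ∈ (Ioc z w).filter Nat.Prime, (1 : ℝ) / p - Real.log (Real.log w / Real.log z)) := by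
    rw [mul_sub, mul_sum, ← add_sub_assoc, ← sum_add_distrib]
    congr 1
    apply sum_congr rfl
    intro p _
    ring
  rw [e]
  refine (abs_add_le _ _).trans (add_le_add h ?_)
  rw [abs_mul, Nat.abs_cast]
  exact mul_le_mul_of_nonneg_left (h1.trans h3) (Nat.cast_nonneg _)

/-- the products and the sums -/
lemma V_exp (c : ℕ) : ∃ v : ℝ, 0 < v ∧ v ≤ 1 ∧ ∀ (Q : ℕ → ℕ → Prop), PerB Q c → (∀ p : ℕ, p.Prime → nuB Q p < p) → ∀ y : ℕ,
    v * Real.exp (-SS Q y) ≤ Vq Q y ∧ Vq Q y ≤ Real.exp (-SS Q y) := by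
  obtain ⟨v, hv⟩ : ∃ v : ℝ, v = (∏ p ∈ pz (2 * c), (p : ℝ)⁻¹) * Real.exp (-(∑' n : ℕ, 2 * (c : ℝ) ^ 2 / (n : ℝ) ^ 2)) := ⟨_, rfl⟩
  have h1 : 0 < v := by
    rw [hv]
    apply mul_pos _ (Real.exp_pos _)
    apply prod_pos
    intro p hp
    have : (0 : ℝ) < p := by exact_mod_cast (mem_pz.1 hp).2.pos
    positivity
  have h2 : v ≤ 1 := by
    rw [hv]
    apply mul_le_one₀
    · apply prod_le_one
      · intro p _; positivity
      · intro p hp
        have : (1 : ℝ) ≤ p := by exact_mod_cast (mem_pz.1 hp).2.one_lt.le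
        exact inv_le_one_of_one_le₀ this
    · exact (Real.exp_pos _).le
    · rw [Real.exp_le_one_iff]
      have : 0 ≤ ∑' n : ℕ, 2 * (c : ℝ) ^ 2 / (n : ℝ) ^ 2 := tsum_nonneg fun n => by positivity
      linarith
  refine ⟨v, h1, h2, fun Q hQ hadm y => ⟨?_, Vq_up Q y⟩⟩
  have := Vq_low Q c hQ hadm y
  rw [← hv] at this
  exact this

/-- **Comparison of the products.** -/
theorem prod_cmp (k c E : ℕ) (ε : ℝ) (hε : 0 < ε) (hε1 : ε ≤ 1) : ∃ C1 : ℝ, 1 ≤ C1 ∧ ∃ x0 : ℕ, ∀ x : ℕ, x0 ≤ x → ∀ z w : ℕ,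
    Real.log x ≤ z → (z : ℝ) ≤ Real.log x ^ E → x ≤ w ^ 5 → w ≤ x → z ≤ w → ∀ Q : ℕ → ℕ → Prop, PerB Q c → (∀ p : ℕ, p.Prime → nuB Q p < p) →
    |∑ p ∈ (Ioc z w).filter Nat.Prime, ((nuB Q p : ℝ) - k) / p| ≤ 2 →
    Vq Q x ≤ C1 * (Vq Q z * (Real.log z / Real.log x) ^ k) ∧
    Vq Q z * (Real.log z / Real.log x) ^ k ≤ C1 * Vq Q x ∧
    Vq Q ⌊ε * Real.log x⌋₊ * (Real.log (Real.log x) / Real.log x) ^ k ≤ C1 * Vq Q x := by
  obtain ⟨Ca, hCa0, hCa⟩ := SS_triv c
  obtain ⟨Cb, hCb0, hCb⟩ := SS_mean k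
  obtain ⟨v, hv0, hv1, hv⟩ := V_exp c
  -- the constants
  obtain ⟨T, hT⟩ : ∃ T : ℝ, T = 2 * E + 2 := ⟨_, rfl⟩
  have hT1 : 1 ≤ T := by
    rw [hT]
    have : (0 : ℝ) ≤ E := Nat.cast_nonneg _
    linarith
  obtain ⟨D1, hD1⟩ : ∃ D1 : ℝ, D1 = c * (Real.log 5 + Ca) + Cb + c * (Real.log T + Ca) + k * Real.log 5 := ⟨_, rfl⟩
  have hl5 : 0 < Real.log 5 := Real.log_pos (by norm_num)
  have hlT : 0 ≤ Real.log T := Real.log_nonneg hT1
  have hc0 : (0 : ℝ) ≤ c := Nat.cast_nonneg _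
  have hk0 : (0 : ℝ) ≤ k := Nat.cast_nonneg _
  have hD10 : 0 ≤ D1 := by rw [hD1]; positivity
  refine ⟨Real.exp D1 / v, ?_, ?_⟩
  · rw [le_div_iff₀ hv0, one_mul]
    exact hv1.trans (Real.one_le_exp hD10)
  · -- the size of `x`
    have ht : Tendsto (fun x : ℕ => Real.log x) atTop atTop := Real.tendsto_log_atTop.comp tendsto_natCast_atTop_atTop
    have ht2 : Tendsto (fun x : ℕ => Real.log (Real.log x)) atTop atTop := Real.tendsto_log_atTop.comp ht
    obtain ⟨x0, hx0⟩ := eventually_atTop.1 ((ht.eventually_ge_atTop (4 / ε)).and (ht2.eventually_ge_atTop (2 * Real.log (2 / ε) + 1)))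
    refine ⟨x0, fun x hx z w hz1 hz2 hxw hwx hzw Q hQ hadm hsum => ?_⟩
    obtain ⟨g1, g2⟩ := hx0 x hx
    obtain ⟨Lx, hLx⟩ : ∃ Lx, Lx = Real.log x := ⟨_, rfl⟩
    obtain ⟨Lz, hLz⟩ : ∃ Lz, Lz = Real.log z := ⟨_, rfl⟩
    obtain ⟨Lw, hLw⟩ : ∃ Lw, Lw = Real.log w := ⟨_, rfl⟩
    obtain ⟨y0, hy0⟩ : ∃ y0 : ℕ, y0 = ⌊ε * Real.log x⌋₊ := ⟨_, rfl⟩
    rw [← hy0]
    rw [← hLx] at g1 g2 hz1 hz2 hy0 ⊢
    rw [← hLz]
    have h4 : 4 ≤ Lx := by
      refine le_trans ?_ g1
      rw [le_div_iff₀ hε]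
      linarith
    have hLx0 : 0 < Lx := by linarith
    have hz4 : (4 : ℝ) ≤ z := h4.trans hz1
    have hz2' : 4 ≤ z := by exact_mod_cast hz4
    have hw4 : 4 ≤ w := hz2'.trans hzw
    have hLz0 : 0 < Lz := by rw [hLz]; exact Real.log_pos (by linarith)
    have hLw0 : 0 < Lw := by rw [hLw]; exact Real.log_pos (by exact_mod_cast (by omega : 1 < w))
    have hw0 : (0 : ℝ) < w := by exact_mod_cast (by omega : 0 < w)
    have hx1 : 1 ≤ x := by omega
    have hxr : (0 : ℝ) < x := by exact_mod_cast hx1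
    have h5 : Lx ≤ 5 * Lw := by
      have h6 : (x : ℝ) ≤ (w : ℝ) ^ 5 := by exact_mod_cast hxw
      have h7 := Real.log_le_log hxr h6
      rw [Real.log_pow] at h7
      rw [hLx, hLw]
      exact_mod_cast h7
    have hLwx : Lw ≤ Lx := by
      rw [hLw, hLx]
      exact Real.log_le_log hw0 (by exact_mod_cast hwx)
    have hll : Real.log Lx ≤ Lz := by
      rw [hLz]
      exact Real.log_le_log hLx0 hz1
    have hll0 : 0 ≤ Real.log Lx := Real.log_nonneg (by linarith)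
    -- `y0`
    have hy01 : (y0 : ℝ) ≤ ε * Lx := by rw [hy0]; exact Nat.floor_le (by positivity)
    have hy02 : ε * Lx / 2 ≤ y0 := by
      have h6 := Nat.lt_floor_add_one (ε * Lx)
      rw [← hy0] at h6
      have h7 : 4 ≤ ε * Lx := by
        rw [div_le_iff₀ hε] at g1
        linarith
      linarith
    have h7 : 4 ≤ ε * Lx := by
      rw [div_le_iff₀ hε] at g1
      linarith
    have hy2 : 2 ≤ y0 := by
      have : (2 : ℝ) ≤ y0 := by linarith
      exact_mod_cast this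
    have hy0z : y0 ≤ z := by
      have : (y0 : ℝ) ≤ z := by
        refine hy01.trans (le_trans ?_ hz1)
        exact mul_le_of_le_one_left hLx0.le hε1
      exact_mod_cast this
    have hlz : Real.log z ≤ T * Real.log y0 := by
      have h8 : Real.log z ≤ E * Real.log Lx := by
        have h9 := Real.log_le_log (by linarith) hz2
        rwa [Real.log_pow] at h9
      have h9 : Real.log Lx - Real.log (2 / ε) ≤ Real.log y0 := by
        rw [← Real.log_div hLx0.ne' (by positivity)]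
        apply Real.log_le_log (by positivity)
        refine le_trans (le_of_eq ?_) hy02
        field_simp
      have h10 : Real.log Lx ≤ 2 * Real.log y0 := by linarith
      have hE0 : (0 : ℝ) ≤ E := Nat.cast_nonneg _
      rw [hT]
      have h11 : 0 ≤ Real.log y0 := Real.log_nonneg (by exact_mod_cast (by omega : 1 ≤ y0))
      calc Real.log z ≤ E * Real.log Lx := h8
        _ ≤ E * (2 * Real.log y0) := mul_le_mul_of_nonneg_left h10 hE0
        _ ≤ (2 * E + 2) * Real.log y0 := by nlinarith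
    -- the facts
    have f1 := hCb Q z w (by omega) hzw hsum
    rw [← hLz, ← hLw] at f1
    have f2 := hCa Q hQ w x (by omega) hwx 5 (by norm_num) (by rw [← hLx, ← hLw]; exact h5)
    have f2' := SS_mono Q w x hwx
    have f3 := hCa Q hQ y0 z hy2 hy0z T hT1 hlz
    have f3' := SS_mono Q y0 z hy0z
    obtain ⟨ℓ, hℓ⟩ : ∃ ℓ : ℝ, ℓ = Real.log (Lx / Lz) := ⟨_, rfl⟩
    have f4 : Real.log (Lw / Lz) ≤ ℓ := by
      rw [hℓ]
      apply Real.log_le_log (by positivity)
      exact div_le_div_of_nonneg_right hLwx hLz0.le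
    have f5 : ℓ - Real.log 5 ≤ Real.log (Lw / Lz) := by
      rw [hℓ, ← Real.log_div (by positivity) (by norm_num)]
      apply Real.log_le_log (by positivity)
      rw [div_div, div_le_div_iff₀ (by positivity) hLz0]
      nlinarith
    have e1 : (Lz / Lx) ^ k = Real.exp (-(k * ℓ)) := by
      have h8 : Lz / Lx = Real.exp (-ℓ) := by
        rw [hℓ, Real.exp_neg, Real.exp_log (by positivity), inv_div]
      rw [h8, ← Real.exp_nat_mul]
      congr 1
      ring
    rw [abs_le] at f1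
    have f4' := mul_le_mul_of_nonneg_left f4 hk0
    have f5' := mul_le_mul_of_nonneg_left f5 hk0
    have p1 : 0 ≤ c * (Real.log 5 + Ca) := by positivity
    have p2 : 0 ≤ c * (Real.log T + Ca) := by positivity
    have p3 : 0 ≤ k * Real.log 5 := by positivity
    obtain ⟨hvz1, hvz2⟩ := hv Q hQ hadm z
    obtain ⟨hvx1, hvx2⟩ := hv Q hQ hadm x
    obtain ⟨hvy1, hvy2⟩ := hv Q hQ hadm y0
    refine ⟨?_, ?_, ?_⟩
    · calc Vq Q x ≤ Real.exp (-SS Q x) := hvx2
        _ ≤ Real.exp (D1 + (-SS Q z + -(k * ℓ))) := by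
            apply Real.exp_le_exp.2
            nlinarith [f1.1, f1.2]
        _ = Real.exp D1 * (Real.exp (-SS Q z) * (Lz / Lx) ^ k) := by rw [Real.exp_add, Real.exp_add, e1]
        _ ≤ Real.exp D1 * ((Vq Q z / v) * (Lz / Lx) ^ k) := by
            have h8 : Real.exp (-SS Q z) ≤ Vq Q z / v := by
              rw [le_div_iff₀ hv0, mul_comm]
              exact hvz1
            gcongr
        _ = _ := by ring
    · calc Vq Q z * (Lz / Lx) ^ k ≤ Real.exp (-SS Q z) * (Lz / Lx) ^ k := by gcongr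
        _ = Real.exp (-SS Q z + -(k * ℓ)) := by rw [Real.exp_add, e1]
        _ ≤ Real.exp (D1 + -SS Q x) := by
            apply Real.exp_le_exp.2
            nlinarith [f1.1, f1.2]
        _ = Real.exp D1 * Real.exp (-SS Q x) := by rw [Real.exp_add]
        _ ≤ Real.exp D1 * (Vq Q x / v) := by
            have h8 : Real.exp (-SS Q x) ≤ Vq Q x / v := by
              rw [le_div_iff₀ hv0, mul_comm]
              exact hvx1
            gcongr
        _ = _ := by ring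
    · calc Vq Q y0 * (Real.log Lx / Lx) ^ k ≤ Real.exp (-SS Q y0) * (Lz / Lx) ^ k := by
            have h8 : (Real.log Lx / Lx) ^ k ≤ (Lz / Lx) ^ k := by
              apply pow_le_pow_left₀ (by positivity)
              exact div_le_div_of_nonneg_right hll hLx0.le
            apply mul_le_mul hvy2 h8 (by positivity) (Real.exp_pos _).le
        _ = Real.exp (-SS Q y0 + -(k * ℓ)) := by rw [Real.exp_add, e1]
        _ ≤ Real.exp (D1 + -SS Q x) := by
            apply Real.exp_le_exp.2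
            nlinarith [f1.1, f1.2]
        _ = Real.exp D1 * Real.exp (-SS Q x) := by rw [Real.exp_add]
        _ ≤ Real.exp D1 * (Vq Q x / v) := by
            have h8 : Real.exp (-SS Q x) ≤ Vq Q x / v := by
              rw [le_div_iff₀ hv0, mul_comm]
              exact hvx1
            gcongr
        _ = _ := by ring

end Pool.Agent.H544.ES
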