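import Mathlib
import Pool.Agent.H544.ES.E1
import Pool.Agent.H544.ES.E2
import Pool.Graph.R_seed8.H373R2.T7.Sys8
import Pool.Graph.R_seed8.W123.RP.Mert

/-!
The number of prime tuples and the sieve products, for almost all constant terms.
-/

set_option autoImplicit false

namespace Pool.Agent.H544.ES
open Finset Filter Polynomial
open Pool.Agent.H544.LD (om Hp Hp_eval Bx)
open Pool.Agent.H373R2.T7
open Pool.Agent.W123.RP (Vq Vz_bounds)

variable {k : ℕ}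

/-- the signed polynomials -/
noncomputable def Gs (F : Fin k → ℤ[X]) (σ : Fin k → ℤ) : Fin k → ℤ[X] := fun i => C (σ i) * F i

lemma Gs_deg (F : Fin k → ℤ[X]) (σ : Fin k → ℤ) (hσ : ∀ i, σ i = 1 ∨ σ i = -1) (i : Fin k) : (Gs F σ i).natDegree = (F i).natDegree := by
  unfold Gs
  apply natDegree_C_mul
  rcases hσ i with h | h <;> rw [h] <;> norm_num

lemma Gs_lead (F : Fin k → ℤ[X]) (σ : Fin k → ℤ) (hσ : ∀ i, σ i = 1 ∨ σ i = -1) (i : Fin k) :
    ((Gs F σ i).leadingCoeff).natAbs = ((F i).leadingCoeff).natAbs := by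
  unfold Gs
  rw [leadingCoeff_mul, leadingCoeff_C, Int.natAbs_mul]
  rcases hσ i with h | h <;> rw [h] <;> simp

lemma Gs_eval (F : Fin k → ℤ[X]) (σ : Fin k → ℤ) (a : Fin k → ℕ) (i : Fin k) (n : ℕ) :
    (a i : ℤ) + (Gs F σ i).eval (n : ℤ) = vl F σ a i n := by
  unfold Gs vl
  rw [eval_mul, eval_C]

lemma nu_om (F : Fin k → ℤ[X]) (σ : Fin k → ℤ) (a : Fin k → ℕ) (p : ℕ) (hp : p.Prime) :
    nuB (sysQ F σ a) p = om (Hp (Gs F σ) a) p := by
  classical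
  unfold nuB om
  congr 1
  ext n
  rw [mem_filter, mem_filter]
  apply and_congr_right
  intro _
  rw [Hp_eval, (Nat.prime_iff_prime_int.1 hp).dvd_finset_prod_iff]
  unfold sysQ
  constructor
  · rintro ⟨i, hi⟩
    exact ⟨i, mem_univ i, by rw [Gs_eval]; exact hi⟩
  · rintro ⟨i, _, hi⟩
    exact ⟨i, by rw [← Gs_eval]; exact hi⟩

/-- the mean value of the number of roots -/
lemma mean_close (p : ℕ) (hp : 1 ≤ p) : |(p : ℝ) * (1 - (1 - 1 / (p : ℝ)) ^ k) - k| ≤ (k : ℝ) ^ 2 / p := by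
  have hp0 : (0 : ℝ) < p := by exact_mod_cast hp
  have hp1 : (1 : ℝ) ≤ p := by exact_mod_cast hp
  obtain ⟨x, hx⟩ : ∃ x : ℝ, x = 1 / (p : ℝ) := ⟨_, rfl⟩
  have hx0 : 0 ≤ x := by rw [hx]; positivity
  have hx1 : x ≤ 1 := by rw [hx, div_le_one hp0]; exact hp1
  have h1 : ∀ j : ℕ, (1 - x) ^ j ≤ 1 - j * x + (j : ℝ) ^ 2 * x ^ 2 := by
    intro j
    induction j with
    | zero => simp
    | succ j ih =>
      rw [pow_succ]
      have hj : (0 : ℝ) ≤ j := Nat.cast_nonneg _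
      calc (1 - x) ^ j * (1 - x) ≤ (1 - j * x + (j : ℝ) ^ 2 * x ^ 2) * (1 - x) := mul_le_mul_of_nonneg_right ih (by linarith)
        _ ≤ _ := by
          push_cast
          nlinarith [mul_nonneg hj (sq_nonneg x), mul_nonneg (sq_nonneg (j : ℝ)) (mul_nonneg (sq_nonneg x) hx0), sq_nonneg x]
  have h2 := h1 k
  have h3 := (mean_le (k := k) p hp).2
  rw [← hx] at h3 ⊢
  have hpx : (p : ℝ) * x = 1 := by rw [hx]; field_simp
  have h4 : (k : ℝ) - (k : ℝ) ^ 2 / p ≤ p * (1 - (1 - x) ^ k) := by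
    calc (k : ℝ) - (k : ℝ) ^ 2 / p = p * (k * x - (k : ℝ) ^ 2 * x ^ 2) := by
          rw [hx]
          field_simp
      _ ≤ p * (1 - (1 - x) ^ k) := mul_le_mul_of_nonneg_left (by linarith) hp0.le
  rw [abs_le]
  have h5 : 0 ≤ (k : ℝ) ^ 2 / p := by positivity
  constructor <;> linarith

/-- from the deviation to the sum of the densities -/
lemma dev_sum (F : Fin k → ℤ[X]) (σ : Fin k → ℤ) (a : Fin k → ℕ) (z w : ℕ) (hz : 1 ≤ z) (hzw : z ≤ w) (hk : (k : ℝ) ^ 2 ≤ z)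
    (h : |∑ p ∈ (Ioc z w).filter Nat.Prime, XX (Gs F σ) p a / p| ≤ 1) :
    |∑ p ∈ (Ioc z w).filter Nat.Prime, ((nuB (sysQ F σ a) p : ℝ) - k) / p| ≤ 2 := by
  have hz0 : (0 : ℝ) < z := by exact_mod_cast hz
  have e : ∑ p ∈ (Ioc z w).filter Nat.Prime, ((nuB (sysQ F σ a) p : ℝ) - k) / p = ∑ p ∈ (Ioc z w).filter Nat.Prime, XX (Gs F σ) p a / p +
      ∑ p ∈ (Ioc z w).filter Nat.Prime, ((p : ℝ) * (1 - (1 - 1 / (p : ℝ)) ^ k) - k) / p := by
    rw [← sum_add_distrib]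
    apply sum_congr rfl
    intro p hp
    rw [mem_filter] at hp
    unfold XX
    rw [nu_om F σ a p hp.2]
    ring
  rw [e]
  refine (abs_add_le _ _).trans ?_
  have h2 : |∑ p ∈ (Ioc z w).filter Nat.Prime, ((p : ℝ) * (1 - (1 - 1 / (p : ℝ)) ^ k) - k) / p| ≤ 1 := by
    calc _ ≤ ∑ p ∈ (Ioc z w).filter Nat.Prime, |((p : ℝ) * (1 - (1 - 1 / (p : ℝ)) ^ k) - k) / p| := abs_sum_le_sum_abs _ _
      _ ≤ ∑ p ∈ (Ioc z w).filter Nat.Prime, (k : ℝ) ^ 2 * ((p : ℝ) ^ 2)⁻¹ := by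
          apply sum_le_sum
          intro p hp
          rw [mem_filter] at hp
          have hp0 : (0 : ℝ) < p := by exact_mod_cast hp.2.pos
          rw [abs_div, abs_of_pos hp0, div_le_iff₀ hp0]
          refine (mean_close p hp.2.one_lt.le).trans (le_of_eq ?_)
          field_simp
      _ ≤ ∑ p ∈ Ioc z w, (k : ℝ) ^ 2 * ((p : ℝ) ^ 2)⁻¹ := sum_le_sum_of_subset_of_nonneg (filter_subset _ _) (fun _ _ _ => by positivity)
      _ = (k : ℝ) ^ 2 * ∑ p ∈ Ioc z w, ((p : ℝ) ^ 2)⁻¹ := by rw [mul_sum]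
      _ ≤ (k : ℝ) ^ 2 * (z : ℝ)⁻¹ := by
          apply mul_le_mul_of_nonneg_left _ (by positivity)
          have h3 := sum_Ioc_inv_sq_le_sub (α := ℝ) (by omega : z ≠ 0) hzw
          have : (0 : ℝ) ≤ (w : ℝ)⁻¹ := by positivity
          linarith
      _ ≤ 1 := by
          rw [← div_eq_mul_inv, div_le_one hz0]
          exact hk
  linarith

/-- powers of the logarithm against powers -/
lemma ev_pow (j : ℕ) (s c : ℝ) (hs : 0 < s) (hc : 0 < c) : ∃ x0 : ℕ, ∀ x : ℕ, x0 ≤ x → Real.log x ^ j ≤ c * (x : ℝ) ^ s := by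
  have h1 := (isLittleO_log_rpow_rpow_atTop (j : ℝ) hs).bound hc
  have h2 := (tendsto_natCast_atTop_atTop (R := ℝ)).eventually h1
  have h3 := ((tendsto_natCast_atTop_atTop (R := ℝ)).eventually_ge_atTop 1)
  obtain ⟨x0, hx0⟩ := Filter.eventually_atTop.1 (h2.and h3)
  refine ⟨x0, fun x hx => ?_⟩
  obtain ⟨h4, h5⟩ := hx0 x hx
  rw [Real.norm_of_nonneg (Real.rpow_nonneg (Real.log_nonneg h5) _), Real.norm_of_nonneg (by positivity), Real.rpow_natCast] at h4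
  exact h4

/-- the constants -/
lemma main_alg (k : ℕ) (V P W X x Lx Lz Δ η c3 C3 C1 N : ℝ) (hV : 0 < V) (hP : 0 ≤ P) (hx : 0 < x) (hη : 0 < η) (hLx : 0 < Lx) (hLz : 0 < Lz)
    (hΔ : 1 ≤ Δ) (hc3 : 0 < c3) (hC3 : 0 < C3) (hC1 : 1 ≤ C1) (hV1 : c3 / Lz ≤ V) (hV2 : V ≤ C3 / Lz) (hX1 : η * x ≤ X) (hX2 : X ≤ x)
    (hl1 : Lx / 2 ≤ Real.log X) (hl2 : Real.log X ≤ Lx)
    (h1 : W ≤ C1 * (P * (Lz / Lx) ^ k)) (h2 : P * (Lz / Lx) ^ k ≤ C1 * W)
    (hN : |N - (V⁻¹) ^ k * P * X / (Δ * Real.log X ^ k)| ≤ 1 / 2 * ((V⁻¹) ^ k * P * X / (Δ * Real.log X ^ k))) :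
    x * W ≤ (C1 * Δ * C3 ^ k / η * 2) * N ∧ N ≤ (2 * 2 ^ k / c3 ^ k * C1) * (x * W) := by
  have hX0 : 0 < X := lt_of_lt_of_le (by positivity) hX1
  have hl0 : 0 < Real.log X := lt_of_lt_of_le (by positivity) hl1
  obtain ⟨T, hT⟩ : ∃ T : ℝ, T = (V⁻¹) ^ k * P * X / (Δ * Real.log X ^ k) := ⟨_, rfl⟩
  rw [← hT] at hN
  have hN1 := (abs_le.1 hN).1
  have hN2 := (abs_le.1 hN).2
  have hVi1 : Lz / C3 ≤ V⁻¹ := by
    rw [le_inv_comm₀ (by positivity) hV, inv_div]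
    exact hV2
  have hVi2 : V⁻¹ ≤ Lz / c3 := by
    rw [inv_le_comm₀ hV (by positivity), inv_div]
    exact hV1
  have hVp1 : (Lz / C3) ^ k ≤ (V⁻¹) ^ k := pow_le_pow_left₀ (by positivity) hVi1 k
  have hVp2 : (V⁻¹) ^ k ≤ (Lz / c3) ^ k := pow_le_pow_left₀ (by positivity) hVi2 k
  have hT0 : 0 ≤ T := by rw [hT]; positivity
  have hTl : (P * (Lz / Lx) ^ k) * x ≤ (Δ * C3 ^ k / η) * T := by
    have e : (P * (Lz / Lx) ^ k) * x = (Δ * C3 ^ k / η) * ((Lz / C3) ^ k * P * (η * x) / (Δ * Lx ^ k)) := by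
      rw [div_pow, div_pow]
      field_simp
    rw [e, hT]
    apply mul_le_mul_of_nonneg_left _ (by positivity)
    apply div_le_div₀ (by positivity) _ (by positivity) _
    · apply mul_le_mul _ hX1 (by positivity) (by positivity)
      exact mul_le_mul_of_nonneg_right hVp1 hP
    · apply mul_le_mul_of_nonneg_left _ (by positivity)
      exact pow_le_pow_left₀ hl0.le hl2 k
  have hTu : T ≤ (2 ^ k / c3 ^ k) * ((P * (Lz / Lx) ^ k) * x) := by
    have e : (2 ^ k / c3 ^ k) * ((P * (Lz / Lx) ^ k) * x) = (Lz / c3) ^ k * P * x / (1 * (Lx / 2) ^ k) := by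
      rw [div_pow, div_pow, div_pow]
      field_simp
    rw [e, hT]
    apply div_le_div₀ (by positivity) _ (by positivity) _
    · apply mul_le_mul _ hX2 hX0.le (by positivity)
      exact mul_le_mul_of_nonneg_right hVp2 hP
    · apply mul_le_mul hΔ _ (by positivity) (by positivity)
      exact pow_le_pow_left₀ (by positivity) hl1 k
  constructor
  · calc x * W ≤ x * (C1 * (P * (Lz / Lx) ^ k)) := mul_le_mul_of_nonneg_left h1 hx.le
      _ = C1 * ((P * (Lz / Lx) ^ k) * x) := by ring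
      _ ≤ C1 * ((Δ * C3 ^ k / η) * T) := mul_le_mul_of_nonneg_left hTl (by linarith)
      _ ≤ C1 * ((Δ * C3 ^ k / η) * (2 * N)) := by
          apply mul_le_mul_of_nonneg_left _ (by linarith)
          apply mul_le_mul_of_nonneg_left _ (by positivity)
          linarith
      _ = _ := by ring
  · calc N ≤ 2 * T := by linarith
      _ ≤ 2 * ((2 ^ k / c3 ^ k) * ((P * (Lz / Lx) ^ k) * x)) := by linarith
      _ ≤ 2 * ((2 ^ k / c3 ^ k) * ((C1 * W) * x)) := by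
          apply mul_le_mul_of_nonneg_left _ (by norm_num)
          apply mul_le_mul_of_nonneg_left _ (by positivity)
          exact mul_le_mul_of_nonneg_right h2 hx.le
      _ = _ := by ring

/-- **Prime tuples and sieve products.** -/
theorem count_good (F : Fin k → ℤ[X]) (hd : ∀ i, 1 ≤ (F i).natDegree) (hl : ∀ i, 0 < (F i).leadingCoeff) (σ : Fin k → ℤ)
    (hσ : ∀ i, σ i = 1 ∨ σ i = -1) (B : ℕ) (hB : 1 ≤ B) (U : ℕ) (η : ℝ) (hη : 0 < η) (hη1 : η ≤ 1) (ε : ℝ) (hε : 0 < ε) (hε1 : ε ≤ 1) :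
    ∃ C2 : ℝ, 1 ≤ C2 ∧ ∃ x0 : ℕ, ∀ x : ℕ, x0 ≤ x → ∀ A : Fin k → ℕ,
      (∀ i, A i ≤ B * x ^ (F i).natDegree ∧ x ^ (F i).natDegree ≤ B * A i) →
      ∃ Bad : Finset (Fin k → ℕ), (#Bad : ℝ) ≤ (∏ i, (A i : ℝ)) / Real.log x ^ U ∧
        ∀ a ∈ Bx A, a ∉ Bad → (∀ p : ℕ, p.Prime → nuB (sysQ F σ a) p < p) → η * x ≤ posCount F σ a x →
        x * Vq (sysQ F σ a) x ≤ C2 * prCount F σ a x ∧ (prCount F σ a x : ℝ) ≤ C2 * (x * Vq (sysQ F σ a) x) ∧
        Vq (sysQ F σ a) ⌊ε * Real.log x⌋₊ * (Real.log (Real.log x) / Real.log x) ^ k ≤ C2 * Vq (sysQ F σ a) x ∧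
        (x : ℝ) ^ (3 / 4 : ℝ) ≤ prCount F σ a x := by
  classical
  obtain ⟨c3, C3, hc3, hC3, hVz⟩ := Vz_bounds
  obtain ⟨m, hm⟩ : ∃ m : ℕ, m = sysC F := ⟨_, rfl⟩
  have hm1 : 1 ≤ m := by rw [hm]; exact sysC_pos F
  have hε'0 : 0 < min η (1 / 2) := by positivity
  obtain ⟨B0, hB0⟩ := sys_unweighted F hd hl σ hσ B hB (U + 1) 0 (min η (1 / 2)) hε'0 ((min_le_right _ _).trans (by norm_num))
  obtain ⟨E1, hE1⟩ : ∃ E1 : ℕ, E1 = max B0 (U + 2) := ⟨_, rfl⟩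
  have hE1B : B0 ≤ E1 := by rw [hE1]; exact le_max_left _ _
  have hE1U : U + 2 ≤ E1 := by rw [hE1]; exact le_max_right _ _
  obtain ⟨N0, hN0⟩ := hB0 (E1 + 1)
  obtain ⟨C1, hC1, n1, h1⟩ := prod_cmp k m (E1 + 1) ε hε hε1
  obtain ⟨n2, h2⟩ := Vz_inv_small (E1 + 1)
  -- constants
  obtain ⟨Δ, hΔ⟩ : ∃ Δ : ℝ, Δ = ∏ i, ((F i).natDegree : ℝ) := ⟨_, rfl⟩
  have hΔ1 : 1 ≤ Δ := by
    rw [hΔ]
    calc (1 : ℝ) = ∏ _i : Fin k, (1 : ℝ) := by simp
      _ ≤ _ := prod_le_prod (fun _ _ => zero_le_one) (fun i _ => by exact_mod_cast hd i)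
  obtain ⟨c0, hc0⟩ : ∃ c0 : ℝ, c0 = (1 / (3 * m : ℝ)) ^ (3 * m) * Real.exp (-(2 * (m : ℝ) ^ 2)) := ⟨_, rfl⟩
  have hm0 : (0 : ℝ) < m := by exact_mod_cast hm1
  have hc00 : 0 < c0 := by rw [hc0]; positivity
  obtain ⟨K, hK⟩ : ∃ K : ℝ, K = (∑ i, ((F i).natDegree : ℝ) + k) ^ 2 := ⟨_, rfl⟩
  have hK0 : 0 ≤ K := by rw [hK]; positivity
  obtain ⟨lm, hlm⟩ : ∃ lm : ℕ, lm = ∑ i, ((F i).leadingCoeff).natAbs := ⟨_, rfl⟩
  obtain ⟨n3, h3⟩ := ev_L' (max (max 4 (K + 2)) (max (lm + 1) ((k : ℝ) ^ 2)))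
  obtain ⟨n4, h4⟩ := ev_pow (4 * (E1 + 1)) 1 1 one_pos one_pos
  obtain ⟨n5, h5⟩ := ev_pow (U + 1) (1 / 2) (1 / (9 * k * B + 1)) (by norm_num) (by positivity)
  obtain ⟨n6, h6⟩ := ev_pow 0 (1 / 2) η (by norm_num) hη
  obtain ⟨n7, h7⟩ := ev_pow (m + k) (1 / 4) (c0 * η / (2 * Δ)) (by norm_num) (by positivity)
  refine ⟨max (max (C1 * Δ * C3 ^ k / η * 2) (2 * 2 ^ k / c3 ^ k * C1)) C1, hC1.trans (le_max_right _ _),
    max (max (max N0 n1) (max n2 n3)) (max (max n4 n5) (max n6 (max n7 (5 ^ 4)))), fun x hx A hA => ?_⟩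
  have g0 : N0 ≤ x := le_trans (le_trans (le_trans (le_max_left _ _) (le_max_left _ _)) (le_max_left _ _)) hx
  have g1 : n1 ≤ x := le_trans (le_trans (le_trans (le_max_right _ _) (le_max_left _ _)) (le_max_left _ _)) hx
  have g2 : n2 ≤ x := le_trans (le_trans (le_trans (le_max_left _ _) (le_max_right _ _)) (le_max_left _ _)) hx
  have g3 : n3 ≤ x := le_trans (le_trans (le_trans (le_max_right _ _) (le_max_right _ _)) (le_max_left _ _)) hx
  have g4 : n4 ≤ x := le_trans (le_trans (le_trans (le_max_left _ _) (le_max_left _ _)) (le_max_right _ _)) hx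
  have g5 : n5 ≤ x := le_trans (le_trans (le_trans (le_max_right _ _) (le_max_left _ _)) (le_max_right _ _)) hx
  have g6 : n6 ≤ x := le_trans (le_trans (le_trans (le_max_left _ _) (le_max_right _ _)) (le_max_right _ _)) hx
  have g7 : n7 ≤ x := le_trans (le_trans (le_trans (le_trans (le_max_left _ _) (le_max_right _ _)) (le_max_right _ _)) (le_max_right _ _)) hx
  have g8 : 5 ^ 4 ≤ x := le_trans (le_trans (le_trans (le_trans (le_max_right _ _) (le_max_right _ _)) (le_max_right _ _)) (le_max_right _ _)) hx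
  have hL := h3 x g3
  have k4 := h4 x g4
  have k5 := h5 x g5
  have k6 := h6 x g6
  have k7 := h7 x g7
  obtain ⟨L, hLd⟩ : ∃ L : ℝ, L = Real.log x := ⟨_, rfl⟩
  rw [← hLd] at hL k4 k5 k6 k7
  have hL4 : 4 ≤ L := ((le_max_left _ _).trans (le_max_left _ _)).trans hL
  have hLK : K + 2 ≤ L := ((le_max_right _ _).trans (le_max_left _ _)).trans hL
  have hLlm : (lm : ℝ) + 1 ≤ L := ((le_max_left _ _).trans (le_max_right _ _)).trans hL
  have hLk : (k : ℝ) ^ 2 ≤ L := ((le_max_right _ _).trans (le_max_right _ _)).trans hL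
  have hL0 : 0 < L := by linarith
  have hL1 : 1 ≤ L := by linarith
  have hx1 : (1 : ℝ) ≤ x := by exact_mod_cast le_trans (by norm_num) g8
  have hx0 : (0 : ℝ) < x := by linarith
  rw [Real.rpow_one, one_mul] at k4
  rw [pow_zero] at k6
  -- the parameters
  obtain ⟨z, hz⟩ : ∃ z : ℕ, z = ⌈L ^ E1⌉₊ := ⟨_, rfl⟩
  have hLE : 1 ≤ L ^ E1 := one_le_pow₀ hL1
  have hz1 : L ^ E1 ≤ z := by rw [hz]; exact Nat.le_ceil _
  have hz2 : (z : ℝ) ≤ L ^ (E1 + 1) := by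
    rw [hz]
    have := Nat.ceil_lt_add_one (show 0 ≤ L ^ E1 by positivity)
    rw [pow_succ]
    nlinarith
  have hzL : L ≤ z := by
    refine le_trans ?_ hz1
    calc L = L ^ 1 := (pow_one L).symm
      _ ≤ L ^ E1 := pow_le_pow_right₀ hL1 (by omega)
  have hz4 : 4 ≤ z := by exact_mod_cast hL4.trans hzL
  obtain ⟨w, hw⟩ : ∃ w : ℕ, w = Nat.sqrt (Nat.sqrt x) := ⟨_, rfl⟩
  have hw4 : w ^ 4 ≤ x := by
    rw [hw]
    calc Nat.sqrt (Nat.sqrt x) ^ 4 = (Nat.sqrt (Nat.sqrt x) ^ 2) ^ 2 := by ring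
      _ ≤ (Nat.sqrt x) ^ 2 := Nat.pow_le_pow_left (Nat.sqrt_le' _) 2
      _ ≤ x := Nat.sqrt_le' _
  have hw5 : x < (w + 1) ^ 4 := by
    have a1 := Nat.lt_succ_sqrt' x
    have a2 := Nat.lt_succ_sqrt' (Nat.sqrt x)
    rw [← hw] at a2
    calc x < (Nat.sqrt x).succ ^ 2 := a1
      _ ≤ (w.succ ^ 2) ^ 2 := Nat.pow_le_pow_left a2 2
      _ = (w + 1) ^ 4 := by rw [Nat.succ_eq_add_one]; ring
  have hzw : z ≤ w := by
    rw [hw, Nat.le_sqrt', Nat.le_sqrt']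
    have : (((z ^ 2) ^ 2 : ℕ) : ℝ) ≤ x := by
      push_cast
      calc ((z : ℝ) ^ 2) ^ 2 = (z : ℝ) ^ 4 := by ring
        _ ≤ (L ^ (E1 + 1)) ^ 4 := pow_le_pow_left₀ (Nat.cast_nonneg _) hz2 4
        _ = L ^ (4 * (E1 + 1)) := by rw [← pow_mul]; ring_nf
        _ ≤ x := k4
    exact_mod_cast this
  have hw4' : 4 ≤ w := hz4.trans hzw
  have hxw : x ≤ w ^ 5 := by
    have : (w + 1) ^ 4 ≤ w ^ 5 := by
      obtain ⟨v, rfl⟩ : ∃ v, w = v + 4 := ⟨w - 4, by omega⟩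
      nlinarith [sq_nonneg (v : ℤ), Nat.zero_le v, Nat.zero_le (v ^ 2), Nat.zero_le (v ^ 3), Nat.zero_le (v ^ 4), Nat.zero_le (v ^ 5)]
    omega
  have hwx : w ≤ x := by
    calc w = w ^ 1 := (pow_one w).symm
      _ ≤ w ^ 4 := Nat.pow_le_pow_right (by omega) (by norm_num)
      _ ≤ x := hw4
  have hw2 : (w : ℝ) ^ 2 ≤ (x : ℝ) ^ (1 / 2 : ℝ) := by
    rw [← Real.sqrt_eq_rpow]
    apply Real.le_sqrt_of_sq_le
    have h8 : (w : ℝ) ^ 4 ≤ (x : ℝ) := by exact_mod_cast hw4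
    have h9 : ((w : ℝ) ^ 2) ^ 2 = (w : ℝ) ^ 4 := by ring
    rw [h9]
    exact h8
  -- the exceptional sets
  obtain ⟨S, hS1, hS2⟩ := hN0 x g0 A hA z (by rw [← hLd]; exact (pow_le_pow_right₀ hL1 hE1B).trans hz1) (by rw [← hLd]; exact hz2)
  have hB0' : (0 : ℝ) < B := by exact_mod_cast hB
  have hMA : ∀ i, (x : ℝ) / B ≤ A i := by
    intro i
    rw [div_le_iff₀ hB0']
    have h9 : x ≤ B * A i := by
      calc x = x ^ 1 := (pow_one x).symm
        _ ≤ x ^ (F i).natDegree := Nat.pow_le_pow_right (by omega) (hd i)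
        _ ≤ B * A i := (hA i).2
    have h10 : ((x : ℕ) : ℝ) ≤ ((B * A i : ℕ) : ℝ) := by exact_mod_cast h9
    push_cast at h10
    linarith
  have hA0 : ∀ i, (0 : ℝ) < A i := fun i => lt_of_lt_of_le (by positivity) (hMA i)
  have hPA : (0 : ℝ) < ∏ i, (A i : ℝ) := prod_pos fun i _ => hA0 i
  have hdG : ∀ i, 1 ≤ (Gs F σ i).natDegree := fun i => by rw [Gs_deg F σ hσ i]; exact hd i
  have hprimes : ∀ p ∈ (Ioc z w).filter Nat.Prime, p.Prime ∧ z < p ∧ p ≤ w ∧ ∀ i, ¬ (p : ℤ) ∣ (Gs F σ i).leadingCoeff := by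
    intro p hp
    rw [mem_filter, mem_Ioc] at hp
    refine ⟨hp.2, hp.1.1, hp.1.2, fun i hdv => ?_⟩
    have h11 : (Gs F σ i).leadingCoeff ≠ 0 := by
      intro h0
      have := Gs_lead F σ hσ i
      rw [h0, Int.natAbs_zero] at this
      have h12 := hl i
      omega
    have h13 := Nat.le_of_dvd (Int.natAbs_pos.2 h11) (Int.natCast_dvd.1 hdv)
    rw [Gs_lead F σ hσ i] at h13
    have h14 : ((F i).leadingCoeff).natAbs ≤ lm := by
      rw [hlm]
      exact single_le_sum (f := fun i => ((F i).leadingCoeff).natAbs) (fun _ _ => Nat.zero_le _) (mem_univ i)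
    have h15 : (lm : ℝ) + 1 ≤ z := hLlm.trans hzL
    have h16 : lm + 1 ≤ z := by exact_mod_cast h15
    omega
  have hsec := second (Gs F σ) hdG A ((x : ℝ) / B) (by positivity) hMA z w (by omega) hzw _ hprimes
  refine ⟨S ∪ (Bx A).filter (fun a => ¬ |∑ p ∈ (Ioc z w).filter Nat.Prime, XX (Gs F σ) p a / p| ≤ 1), ?_, fun a ha hna hadm hpos => ?_⟩
  · have hsum : (∑ i, ((Gs F σ i).natDegree : ℝ) + k) ^ 2 = K := by
      rw [hK]
      congr 2
      exact sum_congr rfl fun i _ => by rw [Gs_deg F σ hσ i]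
    rw [hsum] at hsec
    have hcu : (#(S ∪ (Bx A).filter (fun a => ¬ |∑ p ∈ (Ioc z w).filter Nat.Prime, XX (Gs F σ) p a / p| ≤ 1)) : ℝ) ≤
        #S + #((Bx A).filter (fun a => ¬ |∑ p ∈ (Ioc z w).filter Nat.Prime, XX (Gs F σ) p a / p| ≤ 1)) := by
      exact_mod_cast card_union_le _ _
    rw [← hLd] at hS1 ⊢
    obtain ⟨PA, hPAd⟩ : ∃ PA : ℝ, PA = ∏ i, (A i : ℝ) := ⟨_, rfl⟩
    rw [← hPAd] at hS1 hsec hPA ⊢
    have e1 : 1 / L ^ (U + 1) ≤ 1 / L ^ U * (1 / L) := by rw [pow_succ]; apply le_of_eq; field_simp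
    have e2 : K / z ≤ 1 / L ^ U * (K / L) := by
      have : L ^ U * L ≤ z := by
        refine le_trans ?_ hz1
        rw [← pow_succ]
        exact pow_le_pow_right₀ hL1 (by omega)
      calc K / z ≤ K / (L ^ U * L) := div_le_div_of_nonneg_left hK0 (by positivity) this
        _ = 1 / L ^ U * (K / L) := by field_simp
    have e3 : 9 * k * (w : ℝ) ^ 2 / (x / B) ≤ 1 / L ^ U * (1 / L) := by
      obtain ⟨s, hs⟩ : ∃ s : ℝ, s = (x : ℝ) ^ (1 / 2 : ℝ) := ⟨_, rfl⟩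
      have hss : s * s = x := by
        rw [hs, ← Real.sqrt_eq_rpow]
        exact Real.mul_self_sqrt hx0.le
      have hs0 : 0 < s := by rw [hs]; positivity
      rw [← hs] at hw2 k5
      have hk5 : (9 * k * B + 1) * L ^ (U + 1) ≤ s := by
        rw [div_mul_eq_mul_div, one_mul, le_div_iff₀ (by positivity)] at k5
        linarith
      calc 9 * k * (w : ℝ) ^ 2 / (x / B) = 9 * k * B * (w : ℝ) ^ 2 / x := by field_simp
        _ ≤ 9 * k * B * s / x := by gcongr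
        _ = 9 * k * B / s := by rw [← hss]; field_simp
        _ ≤ 1 / L ^ (U + 1) := by
            rw [div_le_div_iff₀ hs0 (by positivity)]
            have : 0 < L ^ (U + 1) := by positivity
            nlinarith
        _ ≤ _ := e1
    have e4 : 1 / L ^ U * (1 / L) + (1 / L ^ U * (K / L) + 1 / L ^ U * (1 / L)) ≤ 1 / L ^ U := by
      have : 1 / L + (K / L + 1 / L) ≤ 1 := by
        rw [← add_div, ← add_div, div_le_one hL0]
        linarith
      calc _ = 1 / L ^ U * (1 / L + (K / L + 1 / L)) := by ring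
        _ ≤ 1 / L ^ U * 1 := mul_le_mul_of_nonneg_left this (by positivity)
        _ = _ := mul_one _
    calc _ ≤ _ := hcu
      _ ≤ PA / L ^ (U + 1) + PA * (K / z + 9 * k * (w : ℝ) ^ 2 / (x / B)) := add_le_add hS1 hsec
      _ = PA * (1 / L ^ (U + 1) + (K / z + 9 * k * (w : ℝ) ^ 2 / (x / B))) := by ring
      _ ≤ PA * (1 / L ^ U) := by
          apply mul_le_mul_of_nonneg_left _ hPA.le
          linarith
      _ = PA / L ^ U := by ring
  · rw [mem_union, not_or] at hna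
    obtain ⟨hna1, hna2⟩ := hna
    have hdev : |∑ p ∈ (Ioc z w).filter Nat.Prime, XX (Gs F σ) p a / p| ≤ 1 := by
      by_contra hcon
      exact hna2 (mem_filter.2 ⟨ha, hcon⟩)
    have hdev2 := dev_sum F σ a z w (by omega) hzw (hLk.trans hzL) hdev
    have hper : PerB (sysQ F σ a) m := by rw [hm]; exact sysQ_per F hd hl σ hσ a
    obtain ⟨q1, q2, q3⟩ := h1 x g1 z w (by rw [← hLd]; exact hzL) (by rw [← hLd]; exact hz2) hxw hwx hzw (sysQ F σ a) hper hadm hdev2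
    obtain ⟨X, hX⟩ : ∃ X : ℕ, X = posCount F σ a x := ⟨_, rfl⟩
    have hXx : X ≤ x := by
      rw [hX]
      unfold posCount
      refine (card_filter_le _ _).trans ?_
      rw [Nat.card_Icc]
      omega
    have hVq0 : 0 < Vq (sysQ F σ a) z := by
      unfold Vq
      apply prod_pos
      intro p hp
      have hpp := (mem_pz.1 hp).2
      have h20 : (nuB (sysQ F σ a) p : ℝ) < p := by exact_mod_cast hadm p hpp
      have h21 : (0 : ℝ) < p := by exact_mod_cast hpp.pos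
      rw [sub_pos, div_lt_one h21]
      exact h20
    have hV0 := Vz_pos z
    have hne : ((Vz z)⁻¹) ^ k * ∏ p ∈ pz z, (1 - (nuB (sysQ F σ a) p : ℝ) / p) ≠ 0 := by
      have : 0 < ((Vz z)⁻¹) ^ k * Vq (sysQ F σ a) z := by positivity
      exact this.ne'
    obtain ⟨_, hmain⟩ := hS2 a ha hna1 X (by rw [hX, sub_self, abs_zero]; exact Nat.cast_nonneg _) hXx
    have hmain2 := hmain hne (by
      rw [hX]
      exact le_trans (mul_le_mul_of_nonneg_right (min_le_left _ _) hx0.le) hpos)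
    have hlow := sing_low (k := k) (sysQ F σ a) m hm1 hper z L hL1 (by rw [hLd]; exact h2 x g2 z (by omega) (by rw [← hLd]; exact hz2)) hne
    rw [← hc0] at hlow
    have eVq : ∏ p ∈ pz z, (1 - (nuB (sysQ F σ a) p : ℝ) / p) = Vq (sysQ F σ a) z := rfl
    rw [eVq] at hmain2 hlow
    rw [← hΔ] at hmain2
    rw [← hX] at hpos
    have hX0 : (0 : ℝ) < X := lt_of_lt_of_le (by positivity) hpos
    have hXr : (X : ℝ) ≤ x := by exact_mod_cast hXx
    -- the logarithm of `X`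
    obtain ⟨s, hs⟩ : ∃ s : ℝ, s = (x : ℝ) ^ (1 / 2 : ℝ) := ⟨_, rfl⟩
    have hss : s * s = x := by
      rw [hs, ← Real.sqrt_eq_rpow]
      exact Real.mul_self_sqrt hx0.le
    have hs0 : 0 < s := by rw [hs]; positivity
    have hl1 : L / 2 ≤ Real.log X := by
      have h22 : s ≤ X := by
        rw [← hs] at k6
        refine le_trans ?_ hpos
        calc s = 1 * s := (one_mul s).symm
          _ ≤ η * s * s := mul_le_mul_of_nonneg_right k6 hs0.le
          _ = η * x := by rw [mul_assoc, hss]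
      calc L / 2 = Real.log s := by
            rw [hs, Real.log_rpow hx0, ← hLd]
            ring
        _ ≤ Real.log X := Real.log_le_log hs0 h22
    have hl2 : Real.log X ≤ L := by
      rw [hLd]
      exact Real.log_le_log hX0 hXr
    have hl0 : 0 < Real.log X := lt_of_lt_of_le (by positivity) hl1
    obtain ⟨T, hT⟩ : ∃ T : ℝ, T = (Vz z)⁻¹ ^ k * Vq (sysQ F σ a) z * X / (Δ * Real.log X ^ k) := ⟨_, rfl⟩
    have hT0 : 0 < T := by rw [hT]; positivity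
    have hmain3 : |(prCount F σ a x : ℝ) - T| ≤ 1 / 2 * T := by
      rw [← hT] at hmain2
      exact hmain2.trans (mul_le_mul_of_nonneg_right (min_le_right _ _) hT0.le)
    have hzlog : 0 < Real.log z := Real.log_pos (by exact_mod_cast (by omega : 1 < z))
    obtain ⟨hv1, hv2⟩ := hVz z (by omega)
    rw [← hLd] at q1 q2 q3
    have hfin := main_alg k (Vz z) (Vq (sysQ F σ a) z) (Vq (sysQ F σ a) x) X x L (Real.log z) Δ η c3 C3 C1 (prCount F σ a x) hV0 hVq0.le hx0 hη hL0 hzlog hΔ1 hc3 hC3 hC1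
      hv1 hv2 hpos hXr hl1 hl2 q1 q2 (by rw [← hT]; exact hmain3)
    have hW0 : 0 ≤ Vq (sysQ F σ a) x := by
      by_contra hneg
      push Not at hneg
      have h30 : 0 < Vq (sysQ F σ a) z * (Real.log z / L) ^ k := by positivity
      nlinarith [mul_neg_of_pos_of_neg (show (0 : ℝ) < C1 by linarith) hneg]
    refine ⟨hfin.1.trans ?_, hfin.2.trans ?_, ?_, ?_⟩
    · exact mul_le_mul_of_nonneg_right ((le_max_left _ _).trans (le_max_left _ _)) (Nat.cast_nonneg _)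
    · exact mul_le_mul_of_nonneg_right ((le_max_right _ _).trans (le_max_left _ _)) (by positivity)
    · rw [← hLd]
      exact q3.trans (mul_le_mul_of_nonneg_right (le_max_right _ _) hW0)
    · -- the crude lower bound
      have hTl : c0 / L ^ m * (η * x) / (Δ * L ^ k) ≤ T := by
        rw [hT]
        apply div_le_div₀ (by positivity) _ (by positivity) _
        · exact mul_le_mul hlow hpos (by positivity) (by positivity)
        · apply mul_le_mul_of_nonneg_left _ (by linarith)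
          exact pow_le_pow_left₀ hl0.le hl2 k
      have h31 := (abs_le.1 hmain3).1
      have h32 : (x : ℝ) ^ (3 / 4 : ℝ) * (x : ℝ) ^ (1 / 4 : ℝ) = x := by
        rw [← Real.rpow_add hx0]
        norm_num
      have h33 : 0 < (x : ℝ) ^ (3 / 4 : ℝ) := by positivity
      have h34 : 2 * (x : ℝ) ^ (3 / 4 : ℝ) ≤ c0 / L ^ m * (η * x) / (Δ * L ^ k) := by
        have e5 : c0 / L ^ m * (η * x) / (Δ * L ^ k) = (c0 * η / Δ) * x / L ^ (m + k) := by
          rw [pow_add]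
          field_simp
        rw [e5, le_div_iff₀ (by positivity)]
        calc 2 * (x : ℝ) ^ (3 / 4 : ℝ) * L ^ (m + k) ≤ 2 * (x : ℝ) ^ (3 / 4 : ℝ) * (c0 * η / (2 * Δ) * (x : ℝ) ^ (1 / 4 : ℝ)) :=
              mul_le_mul_of_nonneg_left k7 (by positivity)
          _ = (c0 * η / Δ) * ((x : ℝ) ^ (3 / 4 : ℝ) * (x : ℝ) ^ (1 / 4 : ℝ)) := by field_simp
          _ = _ := by rw [h32]
      linarith

end Pool.Agent.H544.ES
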