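import Mathlib
import Pool.Agent.H544.ES.E3
import Pool.Agent.H534.RT.Uni

/-!
The system of polynomials with the constant terms: irreducibility, heights, translates.
-/

set_option autoImplicit false

namespace Pool.Agent.H544.ES
open Finset Filter Polynomial
open Pool.Agent.H544.LD (Bx)
open Pool.Agent.H373R2.T7
open Pool.Agent.W123.RP (Vq)
open Pool.Agent.Y879.GL (US)
open Pool.Agent.H534.RT (NT)

variable {k : ℕ}

/-- the polynomials with the constant terms -/
noncomputable def fa (F : Fin k → ℤ[X]) (σ : Fin k → ℤ) (a : Fin k → ℕ) : Fin k → ℤ[X] := fun i => C ((a i : ℕ) : ℤ) + C (σ i) * F i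

lemma fa_eval (F : Fin k → ℤ[X]) (σ : Fin k → ℤ) (a : Fin k → ℕ) (i : Fin k) (n : ℕ) :
    (fa F σ a i).eval (n : ℤ) = vl F σ a i n := by
  unfold fa vl
  rw [eval_add, eval_mul, eval_C, eval_C]

lemma fa_deg (F : Fin k → ℤ[X]) (σ : Fin k → ℤ) (hσ : ∀ i, σ i = 1 ∨ σ i = -1) (a : Fin k → ℕ) (i : Fin k) :
    (fa F σ a i).natDegree = (F i).natDegree := by
  unfold fa
  rw [natDegree_C_add]
  apply natDegree_C_mul
  rcases hσ i with h | h <;> rw [h] <;> norm_num

lemma fa_Q (F : Fin k → ℤ[X]) (σ : Fin k → ℤ) (a : Fin k → ℕ) : Pool.Agent.W123.RU.Poly.Q (fa F σ a) = sysQ F σ a := by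
  funext p n
  unfold Pool.Agent.W123.RU.Poly.Q sysQ
  simp only [fa_eval]

/-- few arguments give a unit value of a nonconstant polynomial -/
lemma unit_values (g : ℤ[X]) (hg : ¬ IsUnit g) (hg0 : g ≠ 0) (S : Finset ℕ) : #(S.filter (fun n : ℕ => IsUnit (g.eval (n : ℤ)))) ≤ 2 * g.natDegree := by
  classical
  by_cases hd : g.natDegree = 0
  · rw [hd, mul_zero, Nat.le_zero, card_eq_zero, filter_eq_empty_iff]
    intro n _ hu
    apply hg
    rw [eq_C_of_natDegree_eq_zero hd, eval_C] at hu
    rw [eq_C_of_natDegree_eq_zero hd]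
    exact hu.map C
  · have hc : ∀ c : ℤ, #(S.filter (fun n : ℕ => g.eval (n : ℤ) = c)) ≤ g.natDegree := by
      intro c
      have hne : g - C c ≠ 0 := by
        intro h0
        apply hd
        rw [sub_eq_zero.1 h0, natDegree_C]
      calc #(S.filter (fun n : ℕ => g.eval (n : ℤ) = c)) = #((S.filter (fun n : ℕ => g.eval (n : ℤ) = c)).image (fun n : ℕ => (n : ℤ))) :=
            (card_image_of_injective _ Nat.cast_injective).symm
        _ ≤ #((g - C c).roots.toFinset) := by
            apply card_le_card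
            intro y hy
            rw [mem_image] at hy
            obtain ⟨n, hn, rfl⟩ := hy
            rw [mem_filter] at hn
            rw [Multiset.mem_toFinset, mem_roots hne, IsRoot.def, eval_sub, eval_C, hn.2, sub_self]
        _ ≤ Multiset.card (g - C c).roots := Multiset.toFinset_card_le _
        _ ≤ (g - C c).natDegree := card_roots' _
        _ = g.natDegree := natDegree_sub_C
    calc #(S.filter (fun n : ℕ => IsUnit (g.eval (n : ℤ)))) ≤ #(S.filter (fun n : ℕ => g.eval (n : ℤ) = 1) ∪ S.filter (fun n : ℕ => g.eval (n : ℤ) = -1)) := by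
          apply card_le_card
          intro n hn
          rw [mem_filter] at hn
          rw [mem_union, mem_filter, mem_filter]
          rcases Int.isUnit_iff.1 hn.2 with h | h
          · exact Or.inl ⟨hn.1, h⟩
          · exact Or.inr ⟨hn.1, h⟩
      _ ≤ #(S.filter (fun n : ℕ => g.eval (n : ℤ) = 1)) + #(S.filter (fun n : ℕ => g.eval (n : ℤ) = -1)) := card_union_le _ _
      _ ≤ g.natDegree + g.natDegree := add_le_add (hc 1) (hc (-1))
      _ = 2 * g.natDegree := by ring

/-- a polynomial with many prime values is irreducible -/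
lemma irr_of_many (f : ℤ[X]) (hf : f.natDegree ≠ 0) (S : Finset ℕ) (hS : 2 * f.natDegree < #S) (hp : ∀ n ∈ S, Prime (f.eval (n : ℤ))) :
    Irreducible f := by
  classical
  have hf0 : f ≠ 0 := fun h => hf (by rw [h, natDegree_zero])
  refine ⟨fun hu => hf (natDegree_eq_zero_of_isUnit hu), fun g h hgh => ?_⟩
  by_contra hcon
  push Not at hcon
  have hg0 : g ≠ 0 := fun h0 => hf0 (by rw [hgh, h0, zero_mul])
  have hh0 : h ≠ 0 := fun h0 => hf0 (by rw [hgh, h0, mul_zero])
  have h1 := unit_values g hcon.1 hg0 S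
  have h2 := unit_values h hcon.2 hh0 S
  have h3 : f.natDegree = g.natDegree + h.natDegree := by rw [hgh, natDegree_mul hg0 hh0]
  have h4 : #S ≤ #(S.filter (fun n : ℕ => IsUnit (g.eval (n : ℤ))) ∪ S.filter (fun n : ℕ => IsUnit (h.eval (n : ℤ)))) := by
    apply card_le_card
    intro n hn
    rw [mem_union, mem_filter, mem_filter]
    have h5 := hp n hn
    rw [hgh, eval_mul] at h5
    rcases h5.irreducible.isUnit_or_isUnit rfl with h6 | h6
    · exact Or.inl ⟨hn, h6⟩
    · exact Or.inr ⟨hn, h6⟩
  have h5 := card_union_le (S.filter (fun n : ℕ => IsUnit (g.eval (n : ℤ)))) (S.filter (fun n : ℕ => IsUnit (h.eval (n : ℤ))))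
  omega

/-- associated translates -/
lemma assoc_eval (f g : ℤ[X]) (t : ℕ) (h : Associated f (g.comp (X + C (t : ℤ)))) :
    f.eval 0 = g.eval (t : ℤ) ∨ f.eval 0 = -g.eval (t : ℤ) := by
  obtain ⟨u, hu⟩ := h
  obtain ⟨c, hc, hcu⟩ := Polynomial.isUnit_iff.1 u.isUnit
  have h1 := congrArg (fun P : ℤ[X] => P.eval 0) hu
  simp only [eval_mul, eval_comp, eval_add, eval_X, eval_C, zero_add, ← hcu] at h1
  rcases Int.isUnit_iff.1 hc with h2 | h2
  · left
    rw [h2, mul_one] at h1
    exact h1
  · right
    rw [h2] at h1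
    linarith

/-- a polynomial is not a translate of itself -/
lemma nt_self (f : ℤ[X]) (hf : f.natDegree ≠ 0) (t : ℕ) (ht : 1 ≤ t) : ¬ Associated f (f.comp (X + C (t : ℤ))) := by
  rintro ⟨u, hu⟩
  obtain ⟨c, hc, hcu⟩ := Polynomial.isUnit_iff.1 u.isUnit
  have hf0 : f ≠ 0 := fun h => hf (by rw [h, natDegree_zero])
  have hl0 : f.leadingCoeff ≠ 0 := leadingCoeff_ne_zero.2 hf0
  have h1 := congrArg Polynomial.leadingCoeff hu
  rw [← hcu, leadingCoeff_mul, leadingCoeff_C, leadingCoeff_comp (by rw [natDegree_X_add_C]; norm_num), leadingCoeff_X_add_C, one_pow, mul_one] at h1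
  have hc1 : c = 1 := by
    have : f.leadingCoeff * (c - 1) = 0 := by linarith
    rcases mul_eq_zero.1 this with h2 | h2
    · exact absurd h2 hl0
    · linarith
  have h2 : f = f.comp (X + C (t : ℤ)) := by
    rw [← hcu, hc1, C_1, mul_one] at hu
    exact hu
  have h3 : ∀ n : ℕ, f.eval ((n * t : ℕ) : ℤ) = f.eval 0 := by
    intro n
    induction n with
    | zero => simp
    | succ n ih =>
      have h4 := congrArg (fun P : ℤ[X] => P.eval ((n * t : ℕ) : ℤ)) h2
      simp only [eval_comp, eval_add, eval_X, eval_C] at h4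
      rw [← ih, h4]
      congr 1
      push_cast
      ring
  apply hf
  have h5 : f = C (f.eval 0) := by
    apply Polynomial.eq_of_infinite_eval_eq
    apply Set.infinite_of_injective_forall_mem (f := fun n : ℕ => ((n * t : ℕ) : ℤ))
    · intro n m hnm
      simp only at hnm
      have : n * t = m * t := by exact_mod_cast hnm
      exact Nat.eq_of_mul_eq_mul_right (by omega) this
    · intro n
      rw [Set.mem_setOf_eq, h3 n, eval_C]
  rw [h5, natDegree_C]

/-- a condition which determines one coordinate -/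
lemma det_count (A : Fin k → ℕ) (i : Fin k) (P : (Fin k → ℕ) → Prop) [DecidablePred P]
    (hdet : ∀ a a' : Fin k → ℕ, P a → P a' → (∀ j, j ≠ i → a j = a' j) → a i = a' i) :
    #((Bx A).filter P) * A i ≤ ∏ j, A j := by
  classical
  have h1 : #((Bx A).filter P) ≤ #(Fintype.piFinset (fun j => if j = i then ({1} : Finset ℕ) else Icc 1 (A j))) := by
    apply card_le_card_of_injOn (fun a => Function.update a i 1)
    · intro a ha
      rw [mem_coe, mem_filter] at ha
      have ha1 := ha.1
      unfold Bx at ha1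
      rw [Fintype.mem_piFinset] at ha1
      rw [mem_coe, Fintype.mem_piFinset]
      intro j
      by_cases hj : j = i
      · subst hj
        simp
      · simp only [if_neg hj, Function.update_of_ne hj]
        exact ha1 j
    · intro a ha a' ha' h
      rw [mem_coe, mem_filter] at ha ha'
      simp only at h
      have hne : ∀ j, j ≠ i → a j = a' j := by
        intro j hj
        have := congrFun h j
        rwa [Function.update_of_ne hj, Function.update_of_ne hj] at this
      funext j
      by_cases hj : j = i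
      · rw [hj]
        exact hdet a a' ha.2 ha'.2 hne
      · exact hne j hj
  have h2 : #(Fintype.piFinset (fun j => if j = i then ({1} : Finset ℕ) else Icc 1 (A j))) = ∏ j ∈ univ.erase i, A j := by
    rw [Fintype.card_piFinset, ← mul_prod_erase _ _ (mem_univ i), if_pos rfl, card_singleton, one_mul]
    apply prod_congr rfl
    intro j hj
    rw [if_neg (ne_of_mem_erase hj), Nat.card_Icc, Nat.add_sub_cancel]
  calc #((Bx A).filter P) * A i ≤ (∏ j ∈ univ.erase i, A j) * A i := Nat.mul_le_mul_right _ (h1.trans h2.le)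
    _ = ∏ j, A j := by rw [mul_comm, mul_prod_erase _ _ (mem_univ i)]

end Pool.Agent.H544.ES
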