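import Mathlib
import Pool.Agent.H544.ES.E4
import Pool.Graph.R_seed8.H312R2.TwoPrimes

/-!
The exceptional sets: zero values, translates.
-/

set_option autoImplicit false

namespace Pool.Agent.H544.ES
open Finset Filter Polynomial
open Pool.Agent.H544.LD (Bx)
open Pool.Agent.H373R2.T7
open Pool.Agent.W123.RP (Vq)
open Pool.Agent.Y879.GL (US)
open Pool.Agent.H534.RT (NT)
open Pool.Agent.H534.RS (WW WW_pos)

variable {k : ℕ}

/-- the size of the modulus (after `Pool.Agent.H534.RT.WW_big`) -/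
theorem WW_big (ε : ℝ) (hε : 0 < ε) : ∃ x0 : ℕ, ∀ H : ℕ, x0 ≤ H → (H : ℝ) ^ (ε / 2) < WW ε H := by
  rw [← Filter.eventually_atTop]
  obtain ⟨n0, hn0⟩ := Pool.Agent.H312R2.theta_lower
  have hNr : Tendsto (fun H : ℕ => (H : ℝ)) atTop atTop := tendsto_natCast_atTop_atTop
  have hl : Tendsto (fun H : ℕ => Real.log (H : ℝ)) atTop atTop := Real.tendsto_log_atTop.comp hNr
  filter_upwards [hl.eventually_ge_atTop ((n0 + 10) / ε), eventually_ge_atTop 2] with H h1 h2
  rw [div_le_iff₀ hε] at h1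
  have hH0 : (0 : ℝ) < H := by exact_mod_cast (by omega : 0 < H)
  have hn00 : (0 : ℝ) ≤ n0 := Nat.cast_nonneg _
  have h3 : n0 ≤ ⌊ε * Real.log H⌋₊ := Nat.le_floor (by linarith)
  have h4 := hn0 _ h3
  rw [Chebyshev.theta_eq_log_primorial, Nat.floor_natCast] at h4
  have h5 : ε * Real.log H < ⌊ε * Real.log H⌋₊ + 1 := Nat.lt_floor_add_one _
  have hW0 : (0 : ℝ) < WW ε H := by exact_mod_cast WW_pos ε H
  have h6 : ε / 2 * Real.log H < Real.log (WW ε H) := by
    have e : (WW ε H : ℝ) = (primorial ⌊ε * Real.log H⌋₊ : ℝ) := rfl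
    rw [e]
    linarith
  rw [Real.rpow_def_of_pos hH0, ← Real.exp_log hW0]
  apply Real.exp_lt_exp.2
  linarith

/-- the heights -/
lemma hgt_ok (F : Fin k → ℤ[X]) (σ : Fin k → ℤ) (hσ : ∀ i, σ i = 1 ∨ σ i = -1) (B D : ℕ) (hD : ∀ i, (F i).natDegree ≤ D) :
    ∃ x0 : ℕ, ∀ x : ℕ, x0 ≤ x → ∀ A : Fin k → ℕ, (∀ i, A i ≤ B * x ^ (F i).natDegree) → ∀ a ∈ Bx A, ∀ i n,
      |(((fa F σ a i).coeff n : ℤ) : ℝ)| ≤ (x : ℝ) ^ (D + 1) := by
  obtain ⟨M, hM⟩ : ∃ M : ℕ, M = ∑ i, ∑ n ∈ range (D + 1), ((F i).coeff n).natAbs := ⟨_, rfl⟩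
  refine ⟨B + M + 1, fun x hx A hA a ha i n => ?_⟩
  have h1 : ((F i).coeff n).natAbs ≤ M := by
    by_cases hn : n ≤ D
    · rw [hM]
      calc ((F i).coeff n).natAbs ≤ ∑ n ∈ range (D + 1), ((F i).coeff n).natAbs :=
            single_le_sum (f := fun n => ((F i).coeff n).natAbs) (fun _ _ => Nat.zero_le _) (mem_range.2 (by omega))
        _ ≤ _ := single_le_sum (f := fun i => ∑ n ∈ range (D + 1), ((F i).coeff n).natAbs) (fun _ _ => Nat.zero_le _) (mem_univ i)
    · rw [coeff_eq_zero_of_natDegree_lt (lt_of_le_of_lt (hD i) (by omega)), Int.natAbs_zero]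
      exact Nat.zero_le _
  have h2 : ((fa F σ a i).coeff n).natAbs ≤ a i + ((F i).coeff n).natAbs := by
    unfold fa
    rw [coeff_add, coeff_C_mul, coeff_C]
    refine (Int.natAbs_add_le _ _).trans ?_
    apply add_le_add
    · split_ifs
      · simp
      · simp
    · rw [Int.natAbs_mul]
      rcases hσ i with h | h <;> rw [h] <;> simp
  have h3 : a i ≤ A i := by
    unfold Bx at ha
    exact (mem_Icc.1 (Fintype.mem_piFinset.1 ha i)).2
  have h4 : ((fa F σ a i).coeff n).natAbs ≤ x ^ (D + 1) := by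
    have hx1 : 1 ≤ x := by omega
    calc ((fa F σ a i).coeff n).natAbs ≤ a i + ((F i).coeff n).natAbs := h2
      _ ≤ B * x ^ D + M * x ^ D := by
          apply add_le_add
          · exact (h3.trans (hA i)).trans (Nat.mul_le_mul_left _ (Nat.pow_le_pow_right hx1 (hD i)))
          · exact h1.trans (Nat.le_mul_of_pos_right _ (Nat.pos_of_ne_zero (by positivity)))
      _ = (B + M) * x ^ D := by ring
      _ ≤ x * x ^ D := Nat.mul_le_mul_right _ (by omega)
      _ = x ^ (D + 1) := by ring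
  calc |(((fa F σ a i).coeff n : ℤ) : ℝ)| = ((((fa F σ a i).coeff n).natAbs : ℕ) : ℝ) := by
        rw [Nat.cast_natAbs, Int.cast_abs]
    _ ≤ ((x ^ (D + 1) : ℕ) : ℝ) := by exact_mod_cast h4
    _ = (x : ℝ) ^ (D + 1) := by push_cast; rfl

/-- a zero value -/
def ZeI (F : Fin k → ℤ[X]) (σ : Fin k → ℤ) (x : ℕ) (i : Fin k) (a : Fin k → ℕ) : Prop := ∃ n ∈ Icc 1 x, vl F σ a i n = 0

/-- a zero value -/
def ZeB (F : Fin k → ℤ[X]) (σ : Fin k → ℤ) (x : ℕ) (a : Fin k → ℕ) : Prop := ∃ i, ZeI F σ x i a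

open Classical in
/-- the constant terms with a zero value -/
lemma zero_count (F : Fin k → ℤ[X]) (hd : ∀ i, 1 ≤ (F i).natDegree) (hl : ∀ i, 0 < (F i).leadingCoeff) (σ : Fin k → ℤ)
    (hσ : ∀ i, σ i = 1 ∨ (σ i = -1 ∧ 2 ≤ (F i).natDegree)) (B : ℕ) (hB : 1 ≤ B) :
    ∃ n0 : ℕ, ∀ x : ℕ, 1 ≤ x → ∀ A : Fin k → ℕ, (∀ i, x ^ (F i).natDegree ≤ B * A i) →
      (#((Bx A).filter (fun a => ZeB F σ x a)) : ℝ) ≤ (∏ i, (A i : ℝ)) * (k * (n0 * B) / x) := by
  obtain ⟨nf, hnf⟩ : ∃ nf : Fin k → ℕ, ∀ i, ∀ n : ℕ, nf i ≤ n → 0 ≤ (F i).eval (n : ℤ) := by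
    refine ⟨fun i => (ev_mono (F i) (hd i) (hl i)).choose, fun i => (ev_mono (F i) (hd i) (hl i)).choose_spec.1⟩
  obtain ⟨n0, hn0⟩ : ∃ n0 : ℕ, n0 = ∑ i, nf i + 1 := ⟨_, rfl⟩
  refine ⟨n0, fun x hx A hA => ?_⟩
  have hx0 : (0 : ℝ) < x := by exact_mod_cast hx
  have hx1 : (1 : ℝ) ≤ x := by exact_mod_cast hx
  have hB0 : (0 : ℝ) < B := by exact_mod_cast hB
  have hA1 : ∀ i, 1 ≤ A i := by
    intro i
    by_contra h
    have h0 : A i = 0 := by omega
    have := hA i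
    rw [h0, mul_zero] at this
    have h1 : 0 < x ^ (F i).natDegree := by positivity
    omega
  have hA0 : ∀ i, (0 : ℝ) < A i := fun i => by exact_mod_cast hA1 i
  obtain ⟨PA, hPA⟩ : ∃ PA : ℝ, PA = ∏ i, (A i : ℝ) := ⟨_, rfl⟩
  have hPA0 : 0 < PA := by rw [hPA]; exact prod_pos fun i _ => hA0 i
  -- one value
  have h1 : ∀ i, ∀ n : ℕ, (#((Bx A).filter (fun a => vl F σ a i n = 0)) : ℝ) ≤ PA / A i := by
    intro i n
    rw [le_div_iff₀ (hA0 i)]
    have := det_count A i (fun a => vl F σ a i n = 0) (fun a a' h h' _ => by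
      unfold vl at h h'
      have : (a i : ℤ) = (a' i : ℤ) := by linarith
      exact_mod_cast this)
    have h2 : ((#((Bx A).filter (fun a => vl F σ a i n = 0)) * A i : ℕ) : ℝ) ≤ ((∏ j, A j : ℕ) : ℝ) := by exact_mod_cast this
    push_cast at h2
    rw [hPA]
    exact h2
  -- one index
  have h2 : ∀ i, (#((Bx A).filter (fun a => ZeI F σ x i a)) : ℝ) ≤ PA * ((n0 * B) / x) := by
    intro i
    obtain ⟨T, hT⟩ : ∃ T : Finset ℕ, T = (Icc 1 x).filter (fun n => σ i = 1 → n < nf i) := ⟨_, rfl⟩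
    have h3 : #((Bx A).filter (fun a => ZeI F σ x i a)) ≤ ∑ n ∈ T, #((Bx A).filter (fun a => vl F σ a i n = 0)) := by
      refine (card_le_card ?_).trans card_biUnion_le
      intro a ha
      rw [mem_filter] at ha
      obtain ⟨ha1, n, hn, hv⟩ := ha
      rw [mem_biUnion]
      refine ⟨n, ?_, mem_filter.2 ⟨ha1, hv⟩⟩
      rw [hT, mem_filter]
      refine ⟨hn, fun hs => ?_⟩
      by_contra hge
      push Not at hge
      have h4 := hnf i n hge
      unfold vl at hv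
      rw [hs, one_mul] at hv
      unfold Bx at ha1
      have h5 := (mem_Icc.1 (Fintype.mem_piFinset.1 ha1 i)).1
      have h6 : (1 : ℤ) ≤ a i := by exact_mod_cast h5
      linarith
    have h4 : (#T : ℝ) / A i ≤ (n0 * B) / x := by
      rw [div_le_div_iff₀ (hA0 i) hx0]
      rcases hσ i with hs | ⟨hs, hs2⟩
      · have h5 : #T ≤ n0 := by
          calc #T ≤ #(range (nf i)) := by
                apply card_le_card
                intro n hn
                rw [hT, mem_filter] at hn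
                exact mem_range.2 (hn.2 hs)
            _ = nf i := card_range _
            _ ≤ ∑ i, nf i := single_le_sum (f := nf) (fun _ _ => Nat.zero_le _) (mem_univ i)
            _ ≤ n0 := by omega
        have h6 : (x : ℝ) ≤ B * A i := by
          have : x ≤ B * A i := by
            calc x = x ^ 1 := (pow_one x).symm
              _ ≤ x ^ (F i).natDegree := Nat.pow_le_pow_right hx (hd i)
              _ ≤ B * A i := hA i
          exact_mod_cast this
        have h7 : (#T : ℝ) ≤ n0 := by exact_mod_cast h5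
        calc (#T : ℝ) * x ≤ n0 * (B * A i) := mul_le_mul h7 h6 hx0.le (Nat.cast_nonneg _)
          _ = n0 * B * A i := by ring
      · have h5 : #T ≤ x := by
          calc #T ≤ #(Icc 1 x) := by rw [hT]; exact card_filter_le _ _
            _ = x := by rw [Nat.card_Icc]; omega
        have h6 : (x : ℝ) ^ 2 ≤ B * A i := by
          have : x ^ 2 ≤ B * A i := (Nat.pow_le_pow_right hx hs2).trans (hA i)
          exact_mod_cast this
        have h7 : (#T : ℝ) ≤ x := by exact_mod_cast h5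
        have h8 : (1 : ℝ) ≤ n0 := by exact_mod_cast (by omega : 1 ≤ n0)
        have h9 : 0 ≤ (B : ℝ) * A i := by positivity
        calc (#T : ℝ) * x ≤ x * x := mul_le_mul_of_nonneg_right h7 hx0.le
          _ = (x : ℝ) ^ 2 := by ring
          _ ≤ B * A i := h6
          _ ≤ n0 * (B * A i) := by nlinarith
          _ = n0 * B * A i := by ring
    calc (#((Bx A).filter (fun a => ZeI F σ x i a)) : ℝ) ≤ ((∑ n ∈ T, #((Bx A).filter (fun a => vl F σ a i n = 0)) : ℕ) : ℝ) := by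
          exact_mod_cast h3
      _ = ∑ n ∈ T, (#((Bx A).filter (fun a => vl F σ a i n = 0)) : ℝ) := by push_cast; rfl
      _ ≤ ∑ _n ∈ T, PA / A i := sum_le_sum fun n _ => h1 i n
      _ = PA * ((#T : ℝ) / A i) := by rw [sum_const, nsmul_eq_mul]; ring
      _ ≤ PA * ((n0 * B) / x) := mul_le_mul_of_nonneg_left h4 hPA0.le
  have h3 : #((Bx A).filter (fun a => ZeB F σ x a)) ≤ ∑ i, #((Bx A).filter (fun a => ZeI F σ x i a)) := by
    refine (card_le_card ?_).trans card_biUnion_le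
    intro a ha
    rw [mem_filter] at ha
    obtain ⟨ha1, i, hi⟩ := ha
    rw [mem_biUnion]
    exact ⟨i, mem_univ i, mem_filter.2 ⟨ha1, hi⟩⟩
  rw [← hPA]
  calc (#((Bx A).filter (fun a => ZeB F σ x a)) : ℝ) ≤ ((∑ i, #((Bx A).filter (fun a => ZeI F σ x i a)) : ℕ) : ℝ) := by
        exact_mod_cast h3
    _ = ∑ i, (#((Bx A).filter (fun a => ZeI F σ x i a)) : ℝ) := by push_cast; rfl
    _ ≤ ∑ _i : Fin k, PA * ((n0 * B) / x) := sum_le_sum fun i _ => h2 i
    _ = PA * (k * (n0 * B) / x) := by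
        rw [sum_const, card_univ, Fintype.card_fin, nsmul_eq_mul]
        ring

/-- the translates -/
def TrB (F : Fin k → ℤ[X]) (σ : Fin k → ℤ) (W x : ℕ) (a : Fin k → ℕ) : Prop :=
  ∃ i j, j ≠ i ∧ ∃ t ∈ (Ioc 0 x).filter (fun t => W ∣ t), (vl F σ a i 0 = vl F σ a j t ∨ vl F σ a i 0 = -vl F σ a j t)

/-- outside the exceptional set there are no translates -/
lemma nt_ok (F : Fin k → ℤ[X]) (hd : ∀ i, 1 ≤ (F i).natDegree) (σ : Fin k → ℤ) (hσ : ∀ i, σ i = 1 ∨ σ i = -1) (W x : ℕ) (a : Fin k → ℕ)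
    (h : ¬ TrB F σ W x a) : NT W x (fa F σ a) := by
  intro i j t ht1 ht2 htW has
  by_cases hij : j = i
  · subst hij
    exact nt_self _ (by rw [fa_deg F σ hσ]; have := hd j; omega) t ht1 has
  · apply h
    refine ⟨i, j, hij, t, mem_filter.2 ⟨mem_Ioc.2 ⟨ht1, ht2⟩, htW⟩, ?_⟩
    have h1 := assoc_eval _ _ t has
    have h2 : (fa F σ a i).eval 0 = vl F σ a i 0 := by
      rw [← fa_eval]
      simp
    rw [h2, fa_eval] at h1
    exact h1

open Classical in
lemma tr_count (F : Fin k → ℤ[X]) (σ : Fin k → ℤ) (B : ℕ) (hB : 1 ≤ B) (W x : ℕ) (hW : 1 ≤ W) (hx : 1 ≤ x) (A : Fin k → ℕ)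
    (hA : ∀ i, x ≤ B * A i) :
    (#((Bx A).filter (fun a => TrB F σ W x a)) : ℝ) ≤ (∏ i, (A i : ℝ)) * (2 * k ^ 2 * B / W) := by
  have hx0 : (0 : ℝ) < x := by exact_mod_cast hx
  have hW0 : (0 : ℝ) < W := by exact_mod_cast hW
  have hB0 : (0 : ℝ) < B := by exact_mod_cast hB
  have hA1 : ∀ i, 1 ≤ A i := by
    intro i
    by_contra h
    have h0 : A i = 0 := by omega
    have := hA i
    rw [h0, mul_zero] at this
    omega
  have hA0 : ∀ i, (0 : ℝ) < A i := fun i => by exact_mod_cast hA1 i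
  obtain ⟨PA, hPA⟩ : ∃ PA : ℝ, PA = ∏ i, (A i : ℝ) := ⟨_, rfl⟩
  have hPA0 : 0 < PA := by rw [hPA]; exact prod_pos fun i _ => hA0 i
  obtain ⟨T, hT⟩ : ∃ T : Finset ℕ, T = (Ioc 0 x).filter (fun t => W ∣ t) := ⟨_, rfl⟩
  have hTc : (#T : ℝ) ≤ x / W := by
    rw [hT, Nat.Ioc_filter_dvd_card_eq_div]
    exact Nat.cast_div_le
  have h1 : ∀ i j, j ≠ i → ∀ t : ℕ, ∀ s : ℤ, (#((Bx A).filter (fun a => vl F σ a i 0 = s * vl F σ a j t)) : ℝ) ≤ PA / A i := by
    intro i j hij t s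
    rw [le_div_iff₀ (hA0 i)]
    have := det_count A i (fun a => vl F σ a i 0 = s * vl F σ a j t) (fun a a' h h' hne => by
      have h2 : vl F σ a j t = vl F σ a' j t := by unfold vl; rw [hne j hij]
      rw [h2, ← h'] at h
      unfold vl at h
      have : (a i : ℤ) = (a' i : ℤ) := by linarith
      exact_mod_cast this)
    have h2 : ((#((Bx A).filter (fun a => vl F σ a i 0 = s * vl F σ a j t)) * A i : ℕ) : ℝ) ≤ ((∏ j, A j : ℕ) : ℝ) := by exact_mod_cast this
    push_cast at h2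
    rw [hPA]
    exact h2
  have h2 : #((Bx A).filter (fun a => TrB F σ W x a)) ≤ ∑ i : Fin k, ∑ j ∈ univ.filter (fun j => j ≠ i), ∑ t ∈ T, ∑ s ∈ ({1, -1} : Finset ℤ),
      #((Bx A).filter (fun a => vl F σ a i 0 = s * vl F σ a j t)) := by
    refine (card_le_card (t := univ.biUnion (fun i : Fin k => (univ.filter (fun j => j ≠ i)).biUnion (fun j => T.biUnion (fun t =>
      ({1, -1} : Finset ℤ).biUnion (fun s => (Bx A).filter (fun a => vl F σ a i 0 = s * vl F σ a j t)))))) ?_).trans ?_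
    · intro a ha
      rw [mem_filter] at ha
      obtain ⟨ha1, i, j, hij, t, ht, hv⟩ := ha
      simp only [mem_biUnion]
      refine ⟨i, mem_univ i, j, mem_filter.2 ⟨mem_univ j, hij⟩, t, by rw [hT]; exact ht, ?_⟩
      rcases hv with hv | hv
      · exact ⟨1, by simp, mem_filter.2 ⟨ha1, by rw [one_mul]; exact hv⟩⟩
      · exact ⟨-1, by simp, mem_filter.2 ⟨ha1, by rw [hv]; ring⟩⟩
    · refine card_biUnion_le.trans (sum_le_sum fun i _ => ?_)
      refine card_biUnion_le.trans (sum_le_sum fun j _ => ?_)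
      refine card_biUnion_le.trans (sum_le_sum fun t _ => ?_)
      exact card_biUnion_le
  have h3 : ∀ i : Fin k, (∑ j ∈ univ.filter (fun j => j ≠ i), ∑ t ∈ T, ∑ s ∈ ({1, -1} : Finset ℤ),
      (#((Bx A).filter (fun a => vl F σ a i 0 = s * vl F σ a j t)) : ℝ)) ≤ k * (2 * (B / W) * PA) := by
    intro i
    have h4 : ∀ j ∈ univ.filter (fun j : Fin k => j ≠ i), (∑ t ∈ T, ∑ s ∈ ({1, -1} : Finset ℤ),
        (#((Bx A).filter (fun a => vl F σ a i 0 = s * vl F σ a j t)) : ℝ)) ≤ 2 * (B / W) * PA := by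
      intro j hj
      rw [mem_filter] at hj
      have h5 : ∀ t ∈ T, (∑ s ∈ ({1, -1} : Finset ℤ), (#((Bx A).filter (fun a => vl F σ a i 0 = s * vl F σ a j t)) : ℝ)) ≤ 2 * (PA / A i) := by
        intro t _
        rw [sum_pair (by norm_num)]
        have a1 := h1 i j hj.2 t 1
        have a2 := h1 i j hj.2 t (-1)
        linarith
      calc _ ≤ ∑ _t ∈ T, 2 * (PA / A i) := sum_le_sum h5
        _ = (#T : ℝ) * (2 * (PA / A i)) := by rw [sum_const, nsmul_eq_mul]
        _ ≤ (x / W) * (2 * (PA / A i)) := mul_le_mul_of_nonneg_right hTc (by have := hA0 i; positivity)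
        _ = 2 * (x / A i / W) * PA := by have := hA0 i; field_simp
        _ ≤ 2 * (B / W) * PA := by
            have h6 : (x : ℝ) / A i ≤ B := by
              rw [div_le_iff₀ (hA0 i)]
              exact_mod_cast hA i
            gcongr
    calc _ ≤ ∑ _j ∈ univ.filter (fun j : Fin k => j ≠ i), 2 * (B / W) * PA := sum_le_sum h4
      _ = (#(univ.filter (fun j : Fin k => j ≠ i)) : ℝ) * (2 * (B / W) * PA) := by rw [sum_const, nsmul_eq_mul]
      _ ≤ k * (2 * (B / W) * PA) := by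
          apply mul_le_mul_of_nonneg_right _ (by positivity)
          have : #(univ.filter (fun j : Fin k => j ≠ i)) ≤ k := (card_filter_le _ _).trans (by rw [card_univ, Fintype.card_fin])
          exact_mod_cast this
  rw [← hPA]
  calc (#((Bx A).filter (fun a => TrB F σ W x a)) : ℝ) ≤ ((∑ i : Fin k, ∑ j ∈ univ.filter (fun j => j ≠ i), ∑ t ∈ T, ∑ s ∈ ({1, -1} : Finset ℤ),
      #((Bx A).filter (fun a => vl F σ a i 0 = s * vl F σ a j t)) : ℕ) : ℝ) := by exact_mod_cast h2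
    _ = ∑ i : Fin k, ∑ j ∈ univ.filter (fun j => j ≠ i), ∑ t ∈ T, ∑ s ∈ ({1, -1} : Finset ℤ),
      (#((Bx A).filter (fun a => vl F σ a i 0 = s * vl F σ a j t)) : ℝ) := by push_cast; rfl
    _ ≤ ∑ _i : Fin k, (k : ℝ) * (2 * (B / W) * PA) := sum_le_sum fun i _ => h3 i
    _ = PA * (2 * k ^ 2 * B / W) := by
        rw [sum_const, card_univ, Fintype.card_fin, nsmul_eq_mul]
        ring

end Pool.Agent.H544.ES
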