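import Mathlib
import Pool.Agent.H544.ES.E5

/-!
**Dense subsets of the arguments with prime values, for almost all constant terms.**
-/

set_option autoImplicit false

namespace Pool.Agent.H544.ES
open Finset Filter Polynomial
open Pool.Agent.H544.LD (Bx)
open Pool.Agent.H373R2.T7
open Pool.Agent.W123.RP (Vq)
open Pool.Agent.Y879.GL (US)
open Pool.Agent.H534.RT (NT)
open Pool.Agent.H534.RS (WW WW_pos solN)

variable {k : ℕ}

/-- the arguments up to `x` with prime values -/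
def Pa (F : Fin k → ℤ[X]) (σ : Fin k → ℤ) (a : Fin k → ℕ) (x : ℕ) : Finset ℕ :=
  (Icc 1 x).filter (fun n => ∀ i, (vl F σ a i n).toNat.Prime)

lemma card_Pa (F : Fin k → ℤ[X]) (σ : Fin k → ℤ) (a : Fin k → ℕ) (x : ℕ) : #(Pa F σ a x) = prCount F σ a x := rfl

lemma toNat_prime (v : ℤ) (h : v.toNat.Prime) : Prime v ∧ ((v.toNat : ℕ) : ℤ) = v := by
  have h1 : 0 < v.toNat := h.pos
  have h2 : 0 < v := Int.pos_iff_toNat_pos.2 h1
  have h3 : ((v.toNat : ℕ) : ℤ) = v := Int.toNat_of_nonneg h2.le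
  refine ⟨?_, h3⟩
  rw [← h3]
  exact Nat.prime_iff_prime_int.1 h

lemma adm_nu (F : Fin k → ℤ[X]) (hd : ∀ i, 1 ≤ (F i).natDegree) (hl : ∀ i, 0 < (F i).leadingCoeff) (σ : Fin k → ℤ)
    (hσ : ∀ i, σ i = 1 ∨ σ i = -1) (a : Fin k → ℕ) (p : ℕ) (hp : p.Prime) (h : ∃ n : ℕ, ∀ i, ¬ (p : ℤ) ∣ vl F σ a i n) :
    nuB (sysQ F σ a) p < p := by
  classical
  obtain ⟨n, hn⟩ := h
  have hper := (sysQ_per F hd hl σ hσ a).per p n
  have h1 : ¬ sysQ F σ a p (n % p) := by
    rw [← hper]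
    rintro ⟨i, hi⟩
    exact hn i hi
  unfold nuB
  calc #((range p).filter (fun r => sysQ F σ a p r)) < #(range p) := by
        apply card_lt_card
        rw [Finset.ssubset_iff_of_subset (filter_subset _ _)]
        refine ⟨n % p, mem_range.2 (Nat.mod_lt _ hp.pos), fun h2 => h1 (mem_filter.1 h2).2⟩
    _ = p := card_range p

/-- few arguments have a small value -/
lemma small_few (F : Fin k → ℤ[X]) (hd : ∀ i, 1 ≤ (F i).natDegree) (σ : Fin k → ℤ) (hσ : ∀ i, σ i = 1 ∨ σ i = -1)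
    (a : Fin k → ℕ) (x : ℕ) (S : Finset ℕ) (hS : S ⊆ Pa F σ a x) :
    (#(S.filter (fun n => ¬ ∀ i, Nat.sqrt x < (vl F σ a i n).toNat)) : ℝ) ≤ (∑ i, ((F i).natDegree : ℝ)) * (x : ℝ) ^ (1 / 2 : ℝ) := by
  classical
  have h1 : ∀ i, ∀ v : ℕ, #(S.filter (fun n => vl F σ a i n = (v : ℤ))) ≤ (F i).natDegree := by
    intro i v
    have hne : fa F σ a i - C (v : ℤ) ≠ 0 := by
      intro h0
      have h2 := fa_deg F σ hσ a i
      rw [sub_eq_zero.1 h0, natDegree_C] at h2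
      have := hd i
      omega
    calc #(S.filter (fun n => vl F σ a i n = (v : ℤ))) = #((S.filter (fun n => vl F σ a i n = (v : ℤ))).image (fun n : ℕ => (n : ℤ))) :=
          (card_image_of_injective _ Nat.cast_injective).symm
      _ ≤ #((fa F σ a i - C (v : ℤ)).roots.toFinset) := by
          apply card_le_card
          intro y hy
          rw [mem_image] at hy
          obtain ⟨n, hn, rfl⟩ := hy
          rw [mem_filter] at hn
          rw [Multiset.mem_toFinset, mem_roots hne, IsRoot.def, eval_sub, eval_C, fa_eval, hn.2, sub_self]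
      _ ≤ Multiset.card (fa F σ a i - C (v : ℤ)).roots := Multiset.toFinset_card_le _
      _ ≤ (fa F σ a i - C (v : ℤ)).natDegree := card_roots' _
      _ = (F i).natDegree := by rw [natDegree_sub_C, fa_deg F σ hσ a i]
  have h2 : #(S.filter (fun n => ¬ ∀ i, Nat.sqrt x < (vl F σ a i n).toNat)) ≤ ∑ i, ∑ v ∈ Icc 1 (Nat.sqrt x), #(S.filter (fun n => vl F σ a i n = (v : ℤ))) := by
    refine (card_le_card (t := univ.biUnion (fun i : Fin k => (Icc 1 (Nat.sqrt x)).biUnion (fun v => S.filter (fun n => vl F σ a i n = ((v : ℕ) : ℤ))))) ?_).trans ?_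
    · intro n hn
      rw [mem_filter] at hn
      obtain ⟨hnS, hn2⟩ := hn
      push Not at hn2
      obtain ⟨i, hi⟩ := hn2
      have h3 := (mem_filter.1 (hS hnS)).2 i
      simp only [mem_biUnion]
      exact ⟨i, mem_univ i, (vl F σ a i n).toNat, mem_Icc.2 ⟨h3.one_lt.le, hi⟩, mem_filter.2 ⟨hnS, (toNat_prime _ h3).2.symm⟩⟩
    · refine card_biUnion_le.trans (sum_le_sum fun i _ => ?_)
      exact card_biUnion_le
  have h3 : (Nat.sqrt x : ℝ) ≤ (x : ℝ) ^ (1 / 2 : ℝ) := by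
    rw [← Real.sqrt_eq_rpow]
    exact Real.nat_sqrt_le_real_sqrt
  calc (#(S.filter (fun n => ¬ ∀ i, Nat.sqrt x < (vl F σ a i n).toNat)) : ℝ) ≤ ((∑ i, ∑ v ∈ Icc 1 (Nat.sqrt x), #(S.filter (fun n => vl F σ a i n = (v : ℤ))) : ℕ) : ℝ) := by
        exact_mod_cast h2
    _ ≤ ((∑ i, ∑ _v ∈ Icc 1 (Nat.sqrt x), (F i).natDegree : ℕ) : ℝ) := by
        apply Nat.cast_le.2
        exact sum_le_sum fun i _ => sum_le_sum fun v _ => h1 i v
    _ = (∑ i, ((F i).natDegree : ℝ)) * (Nat.sqrt x : ℝ) := by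
        push_cast
        rw [sum_mul]
        apply sum_congr rfl
        intro i _
        rw [sum_const, Nat.card_Icc, nsmul_eq_mul, Nat.add_sub_cancel]
        ring
    _ ≤ _ := mul_le_mul_of_nonneg_left h3 (sum_nonneg fun _ _ => Nat.cast_nonneg _)

/-- the system is admissible for the engine -/
lemma us_ok (F : Fin k → ℤ[X]) (hd : ∀ i, 1 ≤ (F i).natDegree) (σ : Fin k → ℤ) (hσ : ∀ i, σ i = 1 ∨ σ i = -1) (D : ℕ)
    (hD : ∀ i, (F i).natDegree ≤ D) (a : Fin k → ℕ) (x : ℕ) (hgt : ∀ i n, |(((fa F σ a i).coeff n : ℤ) : ℝ)| ≤ (x : ℝ) ^ (D + 1))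
    (hmany : 2 * D < #(Pa F σ a x)) (hadm : ∀ p : ℕ, p.Prime → ∃ n : ℕ, ∀ i, ¬ (p : ℤ) ∣ vl F σ a i n) :
    US k D ((x : ℝ) ^ (D + 1)) 0 (fa F σ a) := by
  refine ⟨fun i => ?_, fun i => ?_, fun i => ?_, hgt, fun p hp => ?_, fun i j t ht ht0 => ?_⟩
  · apply irr_of_many _ (by rw [fa_deg F σ hσ]; have := hd i; omega) (Pa F σ a x)
    · rw [fa_deg F σ hσ]
      have := hD i
      omega
    · intro n hn
      rw [fa_eval]
      exact (toNat_prime _ ((mem_filter.1 hn).2 i)).1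
  · rw [fa_deg F σ hσ]
    have := hd i
    omega
  · rw [fa_deg F σ hσ]
    exact hD i
  · obtain ⟨n, hn⟩ := hadm p hp
    exact ⟨n, fun i => by rw [fa_eval]; exact hn i⟩
  · exfalso
    have : (1 : ℝ) ≤ t := by exact_mod_cast ht
    linarith

/-- the constants -/
lemma end_alg (r : ℕ) (c C2 x V V0 N R Q : ℝ) (hc : 0 < c) (hC : 1 ≤ C2) (hx : 0 < x) (hV : 0 < V) (hV0 : 0 < V0) (hN : 0 ≤ N) (hR : 0 ≤ R)
    (h1 : N ≤ C2 * (x * V)) (h2 : V0 * R ≤ C2 * V) (hQ : c * (x * (V ^ (r + 1) / V0 ^ r)) ≤ Q) :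
    c / (C2 * C2 ^ r) * R ^ r * N ≤ Q := by
  refine le_trans ?_ hQ
  have h3 : R ^ r ≤ C2 ^ r * (V ^ r / V0 ^ r) := by
    rw [mul_div_assoc', le_div_iff₀ (by positivity), ← mul_pow, ← mul_pow]
    apply pow_le_pow_left₀ (by positivity)
    linarith
  calc c / (C2 * C2 ^ r) * R ^ r * N ≤ c / (C2 * C2 ^ r) * (C2 ^ r * (V ^ r / V0 ^ r)) * (C2 * (x * V)) := by
        apply mul_le_mul _ h1 hN (by positivity)
        exact mul_le_mul_of_nonneg_left h3 (by positivity)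
    _ = c * (x * (V ^ (r + 1) / V0 ^ r)) := by
        rw [pow_succ]
        field_simp

/-- **Dense subsets of the arguments with prime values.** -/
theorem szem (F : Fin k → ℤ[X]) (hd : ∀ i, 1 ≤ (F i).natDegree) (hl : ∀ i, 0 < (F i).leadingCoeff) (σ : Fin k → ℤ)
    (hσ : ∀ i, σ i = 1 ∨ (σ i = -1 ∧ 2 ≤ (F i).natDegree)) (B : ℕ) (hB : 1 ≤ B) (U r : ℕ) (hr : 1 ≤ r)
    (η κ δ : ℝ) (hη : 0 < η) (hη1 : η ≤ 1) (hκ : 0 < κ) (hδ : 0 < δ) (hδ1 : δ ≤ 1) :
    ∃ γ : ℝ, 0 < γ ∧ ∃ x0 : ℕ, ∀ x : ℕ, x0 ≤ x → ∀ A : Fin k → ℕ,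
      (∀ i, A i ≤ B * x ^ (F i).natDegree ∧ x ^ (F i).natDegree ≤ B * A i) →
      ∃ Bad : Finset (Fin k → ℕ), (#Bad : ℝ) ≤ (∏ i, (A i : ℝ)) / Real.log x ^ U ∧
        ∀ a ∈ Bx A, a ∉ Bad → (∀ p : ℕ, p.Prime → ∃ n : ℕ, ∀ i, ¬ (p : ℤ) ∣ vl F σ a i n) → η * x ≤ posCount F σ a x →
        ∀ S : Finset ℕ, S ⊆ Pa F σ a x → κ * (#(Pa F σ a x) : ℝ) ≤ (#S : ℝ) →
        ∀ b : Fin r → ℕ, Function.Injective b → (∀ l, 1 ≤ b l) → (∀ l, (b l : ℝ) ≤ (x : ℝ) ^ (1 - δ)) →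
        ∃ D' : Finset ℕ, γ * (x : ℝ) ^ (δ / 8) ≤ (#D' : ℝ) ∧ ∀ d ∈ D', 1 ≤ d ∧ (d : ℝ) ≤ (x : ℝ) ^ (δ / 8) ∧
          γ * ((Real.log (Real.log x) / Real.log x) ^ k) ^ r * (#(Pa F σ a x) : ℝ) ≤
            (#(S.filter (fun n => ∀ l, n + primorial ⌊δ / 8 * Real.log x⌋₊ * (b l * d) ∈ S)) : ℝ) := by
  classical
  have hσ' : ∀ i, σ i = 1 ∨ σ i = -1 := fun i => (hσ i).imp id And.left
  obtain ⟨ε, hε⟩ : ∃ ε : ℝ, ε = δ / 8 := ⟨_, rfl⟩
  have hε0 : 0 < ε := by rw [hε]; positivity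
  have hε1 : ε ≤ 1 := by rw [hε]; linarith
  obtain ⟨D, hD⟩ : ∃ D : ℕ, D = ∑ i, (F i).natDegree := ⟨_, rfl⟩
  have hDi : ∀ i, (F i).natDegree ≤ D := by
    intro i
    rw [hD]
    exact single_le_sum (f := fun i => (F i).natDegree) (fun _ _ => Nat.zero_le _) (mem_univ i)
  obtain ⟨C2, hC2, x1, h1⟩ := count_good F hd hl σ hσ' B hB (U + 1) η hη hη1 ε hε0 hε1
  have hC20 : 0 < C2 := by linarith
  obtain ⟨c, hc, x2, h2⟩ := Pool.Agent.H534.RT.uniP k D (D + 1) r (by omega) hr (1 / 2) (κ / (2 * C2)) ε (by norm_num) (by positivity) hε0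
    (by rw [hε]; linarith)
  obtain ⟨n0, h3⟩ := zero_count F hd hl σ hσ B hB
  obtain ⟨x4, h4⟩ := WW_big ε hε0
  obtain ⟨x5, h5⟩ := hgt_ok F σ hσ' B D hDi
  obtain ⟨x6, h6⟩ := ev_L' 3
  obtain ⟨x7, h7⟩ := ev_pow (U + 1) 1 (1 / (k * (n0 * B) + 1)) one_pos (by positivity)
  obtain ⟨x8, h8⟩ := ev_pow (U + 1) (ε / 2) (1 / (2 * k ^ 2 * B + 1)) (by positivity) (by positivity)
  obtain ⟨x9, h9⟩ := ev_pow 0 (1 / 4) (κ / (2 * (D + 1))) (by norm_num) (by positivity)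
  obtain ⟨x10, h10⟩ := ev_pow 0 (3 / 4) (1 / (2 * D + 1)) (by norm_num) (by positivity)
  refine ⟨min c (c / (C2 * C2 ^ r)), lt_min hc (by positivity),
    max (max (max x1 x2) (max x4 x5)) (max (max x6 x7) (max x8 (max x9 x10))), fun x hx A hA => ?_⟩
  have g1 : x1 ≤ x := le_trans (le_trans (le_trans (le_max_left _ _) (le_max_left _ _)) (le_max_left _ _)) hx
  have g2 : x2 ≤ x := le_trans (le_trans (le_trans (le_max_right _ _) (le_max_left _ _)) (le_max_left _ _)) hx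
  have g4 : x4 ≤ x := le_trans (le_trans (le_trans (le_max_left _ _) (le_max_right _ _)) (le_max_left _ _)) hx
  have g5 : x5 ≤ x := le_trans (le_trans (le_trans (le_max_right _ _) (le_max_right _ _)) (le_max_left _ _)) hx
  have g6 : x6 ≤ x := le_trans (le_trans (le_trans (le_max_left _ _) (le_max_left _ _)) (le_max_right _ _)) hx
  have g7 : x7 ≤ x := le_trans (le_trans (le_trans (le_max_right _ _) (le_max_left _ _)) (le_max_right _ _)) hx
  have g8 : x8 ≤ x := le_trans (le_trans (le_trans (le_max_left _ _) (le_max_right _ _)) (le_max_right _ _)) hx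
  have g9 : x9 ≤ x := le_trans (le_trans (le_trans (le_trans (le_max_left _ _) (le_max_right _ _)) (le_max_right _ _)) (le_max_right _ _)) hx
  have g10 : x10 ≤ x := le_trans (le_trans (le_trans (le_trans (le_max_right _ _) (le_max_right _ _)) (le_max_right _ _)) (le_max_right _ _)) hx
  have q4 := h4 x g4
  have q6 := h6 x g6
  have q7 := h7 x g7
  have q8 := h8 x g8
  have q9 := h9 x g9
  have q10 := h10 x g10
  obtain ⟨L, hL⟩ : ∃ L : ℝ, L = Real.log x := ⟨_, rfl⟩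
  rw [← hL] at q6 q7 q8 q9 q10
  rw [pow_zero] at q9 q10
  rw [Real.rpow_one] at q7
  have hL0 : 0 < L := by linarith
  have hx1 : 1 ≤ x := by
    by_contra h0
    have : x = 0 := by omega
    rw [this, Nat.cast_zero, Real.log_zero] at hL
    linarith
  have hx0 : (0 : ℝ) < x := by exact_mod_cast hx1
  have hxr : (1 : ℝ) ≤ x := by exact_mod_cast hx1
  have hB0 : (0 : ℝ) < B := by exact_mod_cast hB
  have hxA : ∀ i, x ≤ B * A i := by
    intro i
    calc x = x ^ 1 := (pow_one x).symm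
      _ ≤ x ^ (F i).natDegree := Nat.pow_le_pow_right hx1 (hd i)
      _ ≤ B * A i := (hA i).2
  have hA0 : ∀ i, (0 : ℝ) < A i := by
    intro i
    have h11 : 1 ≤ A i := by
      by_contra h0
      have h00 : A i = 0 := by omega
      have := hxA i
      rw [h00, mul_zero] at this
      omega
    exact_mod_cast h11
  obtain ⟨Bad1, hB1, hB2⟩ := h1 x g1 A hA
  have hz := h3 x hx1 A (fun i => (hA i).2)
  have ht := tr_count F σ B hB (WW ε x) x (WW_pos ε x) hx1 A hxA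
  obtain ⟨PA, hPA⟩ : ∃ PA : ℝ, PA = ∏ i, (A i : ℝ) := ⟨_, rfl⟩
  have hPA0 : 0 < PA := by rw [hPA]; exact prod_pos fun i _ => hA0 i
  refine ⟨Bad1 ∪ ((Bx A).filter (fun a => ZeB F σ x a) ∪ (Bx A).filter (fun a => TrB F σ (WW ε x) x a)), ?_, ?_⟩
  · rw [← hPA] at hB1 hz ht ⊢
    rw [← hL] at hB1 ⊢
    have e1 : (k * (n0 * B) : ℝ) / x ≤ 1 / L ^ (U + 1) := by
      rw [div_le_div_iff₀ hx0 (by positivity)]
      rw [div_mul_eq_mul_div, one_mul, le_div_iff₀ (by positivity)] at q7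
      have : 0 < L ^ (U + 1) := by positivity
      nlinarith
    have hW0 : (0 : ℝ) < WW ε x := by exact_mod_cast WW_pos ε x
    have e2 : (2 * k ^ 2 * B : ℝ) / WW ε x ≤ 1 / L ^ (U + 1) := by
      rw [div_le_div_iff₀ hW0 (by positivity)]
      rw [div_mul_eq_mul_div, one_mul, le_div_iff₀ (by positivity)] at q8
      have : 0 < L ^ (U + 1) := by positivity
      nlinarith
    have e3 : (#(Bad1 ∪ ((Bx A).filter (fun a => ZeB F σ x a) ∪ (Bx A).filter (fun a => TrB F σ (WW ε x) x a))) : ℝ) ≤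
        #Bad1 + (#((Bx A).filter (fun a => ZeB F σ x a)) + #((Bx A).filter (fun a => TrB F σ (WW ε x) x a))) := by
      exact_mod_cast (card_union_le _ _).trans (Nat.add_le_add_left (card_union_le _ _) _)
    calc _ ≤ _ := e3
      _ ≤ PA / L ^ (U + 1) + (PA * (k * (n0 * B) / x) + PA * (2 * k ^ 2 * B / WW ε x)) := add_le_add hB1 (add_le_add hz ht)
      _ ≤ PA / L ^ (U + 1) + (PA * (1 / L ^ (U + 1)) + PA * (1 / L ^ (U + 1))) := by gcongr
      _ = PA / L ^ U * (3 / L) := by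
          rw [pow_succ]
          field_simp
          ring
      _ ≤ PA / L ^ U * 1 := by
          apply mul_le_mul_of_nonneg_left _ (by positivity)
          rw [div_le_one hL0]
          exact q6
      _ = PA / L ^ U := mul_one _
  · intro a ha hna hadm hpos S hS hSc b hb hb1 hb2
    rw [mem_union, mem_union, not_or, not_or] at hna
    obtain ⟨hn1, hn2, hn3⟩ := hna
    have hadm' : ∀ p : ℕ, p.Prime → nuB (sysQ F σ a) p < p := fun p hp => adm_nu F hd hl σ hσ' a p hp (hadm p hp)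
    obtain ⟨s1, s2, s3, s4⟩ := hB2 a ha hn1 hadm' hpos
    have hnz : ¬ ZeB F σ x a := fun h => hn2 (mem_filter.2 ⟨ha, h⟩)
    have hnt : ¬ TrB F σ (WW ε x) x a := fun h => hn3 (mem_filter.2 ⟨ha, h⟩)
    obtain ⟨N, hN⟩ : ∃ N : ℝ, N = (prCount F σ a x : ℝ) := ⟨_, rfl⟩
    have hPN : (#(Pa F σ a x) : ℝ) = N := by rw [card_Pa, hN]
    rw [hPN] at hSc ⊢
    rw [← hN] at s1 s2 s4
    have hN0 : 0 ≤ N := by rw [hN]; exact Nat.cast_nonneg _
    have hx34 : 0 < (x : ℝ) ^ (3 / 4 : ℝ) := by positivity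
    have hDr : (0 : ℝ) ≤ D := Nat.cast_nonneg _
    have hmany : 2 * D < #(Pa F σ a x) := by
      have : ((2 * D : ℕ) : ℝ) < (#(Pa F σ a x) : ℝ) := by
        rw [hPN]
        push_cast
        rw [div_mul_eq_mul_div, one_mul, le_div_iff₀ (by positivity)] at q10
        linarith
      exact_mod_cast this
    have hus := us_ok F hd σ hσ' D hDi a x (h5 x g5 A (fun i => (hA i).1) a ha) hmany hadm
    have hNT := nt_ok F hd σ hσ' (WW ε x) x a hnt
    -- the subset with large values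
    obtain ⟨T, hT⟩ : ∃ T : Finset ℕ, T = S.filter (fun n => ∀ i, Nat.sqrt x < (vl F σ a i n).toNat) := ⟨_, rfl⟩
    have hTS : T ⊆ S := by rw [hT]; exact filter_subset _ _
    have hsm := small_few F hd σ hσ' a x S hS
    have hTc : (#S : ℝ) = #T + #(S.filter (fun n => ¬ ∀ i, Nat.sqrt x < (vl F σ a i n).toNat)) := by
      rw [hT]
      exact_mod_cast (card_filter_add_card_filter_not (s := S) (fun n => ∀ i, Nat.sqrt x < (vl F σ a i n).toNat)).symm
    have hhalf : (∑ i, ((F i).natDegree : ℝ)) * (x : ℝ) ^ (1 / 2 : ℝ) ≤ κ / 2 * N := by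
      have e4 : ∑ i, ((F i).natDegree : ℝ) = D := by rw [hD]; push_cast; rfl
      rw [e4]
      have e5 : (x : ℝ) ^ (1 / 2 : ℝ) * (x : ℝ) ^ (1 / 4 : ℝ) = (x : ℝ) ^ (3 / 4 : ℝ) := by
        rw [← Real.rpow_add hx0]
        norm_num
      have e6 : (D : ℝ) ≤ κ / 2 * (x : ℝ) ^ (1 / 4 : ℝ) := by
        have e7 : (1 : ℝ) * (2 * (D + 1)) ≤ κ * (x : ℝ) ^ (1 / 4 : ℝ) := by
          rw [div_mul_eq_mul_div, le_div_iff₀ (by positivity)] at q9
          exact q9
        linarith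
      calc (D : ℝ) * (x : ℝ) ^ (1 / 2 : ℝ) ≤ (κ / 2 * (x : ℝ) ^ (1 / 4 : ℝ)) * (x : ℝ) ^ (1 / 2 : ℝ) :=
            mul_le_mul_of_nonneg_right e6 (by positivity)
        _ = κ / 2 * (x : ℝ) ^ (3 / 4 : ℝ) := by rw [← e5]; ring
        _ ≤ κ / 2 * N := mul_le_mul_of_nonneg_left s4 (by positivity)
    have hTlow : κ / (2 * C2) * (x * Vq (Pool.Agent.W123.RU.Poly.Q (fa F σ a)) x) ≤ (#T : ℝ) := by
      rw [fa_Q]
      calc κ / (2 * C2) * (x * Vq (sysQ F σ a) x) ≤ κ / (2 * C2) * (C2 * N) := mul_le_mul_of_nonneg_left s1 (by positivity)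
        _ = κ / 2 * N := by field_simp
        _ ≤ #T := by linarith
    have hTI : T ⊆ Ioc 0 (0 + x) := by
      intro n hn
      have := mem_Icc.1 (mem_filter.1 (hS (hTS hn))).1
      rw [mem_Ioc]
      omega
    have hTr : ∀ n ∈ T, ∀ i, ∀ p : ℕ, p.Prime → (p : ℝ) ≤ (x : ℝ) ^ (1 / 2 : ℝ) → ¬ (p : ℤ) ∣ (fa F σ a i).eval (n : ℤ) := by
      intro n hn i p hp hpx hdv
      rw [fa_eval] at hdv
      have hnS := hTS hn
      rw [hT, mem_filter] at hn
      have hpr := (mem_filter.1 (hS hnS)).2 i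
      rw [← (toNat_prime _ hpr).2, Int.natCast_dvd_natCast, Nat.prime_dvd_prime_iff_eq hp hpr] at hdv
      have h12 := hn.2 i
      rw [← hdv] at h12
      have h13 : p ≤ Nat.sqrt x := by
        rw [Nat.le_sqrt', ← Nat.cast_le (α := ℝ)]
        push_cast
        calc (p : ℝ) ^ 2 ≤ ((x : ℝ) ^ (1 / 2 : ℝ)) ^ 2 := pow_le_pow_left₀ (Nat.cast_nonneg _) hpx 2
          _ = x := by
            rw [← Real.rpow_natCast, ← Real.rpow_mul hx0.le]
            norm_num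
      omega
    have hne : ∀ n ∈ Ioc 0 (0 + x), ∀ i, (fa F σ a i).eval (n : ℤ) ≠ 0 := by
      intro n hn i h0
      rw [fa_eval] at h0
      rw [mem_Ioc] at hn
      exact hnz ⟨i, n, mem_Icc.2 (by omega), h0⟩
    have hbb : ∀ l, (b l : ℝ) ≤ x / ((x : ℝ) ^ ε) ^ 5 := by
      intro l
      refine (hb2 l).trans ?_
      rw [le_div_iff₀ (by positivity), ← Real.rpow_natCast, ← Real.rpow_mul hx0.le, ← Real.rpow_add hx0]
      calc (x : ℝ) ^ (1 - δ + ε * ((5 : ℕ) : ℝ)) ≤ (x : ℝ) ^ (1 : ℝ) := by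
            apply Real.rpow_le_rpow_of_exponent_le hxr
            rw [hε]
            push_cast
            linarith
        _ = x := Real.rpow_one _
    obtain ⟨D', hD1, hD2⟩ := h2 x g2 (fa F σ a) hus hNT 0 T (by rw [Nat.cast_zero]; positivity) hne hTI hTr hTlow b hb hb1 hbb
    refine ⟨D', ?_, fun d hdD => ?_⟩
    · rw [← hε]
      refine le_trans ?_ hD1
      exact mul_le_mul_of_nonneg_right (min_le_left _ _) (by positivity)
    · obtain ⟨u1, u2, u3⟩ := hD2 d hdD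
      rw [← hε]
      refine ⟨u1, u2, ?_⟩
      rw [fa_Q] at u3
      have hVpos : ∀ y : ℕ, 0 < Vq (sysQ F σ a) y := by
        intro y
        unfold Vq
        apply prod_pos
        intro p hp
        have hpp := (mem_pz.1 hp).2
        have h20 : (nuB (sysQ F σ a) p : ℝ) < p := by exact_mod_cast hadm' p hpp
        have h21 : (0 : ℝ) < p := by exact_mod_cast hpp.pos
        rw [sub_pos, div_lt_one h21]
        exact h20
      have hR : 0 ≤ (Real.log (Real.log x) / Real.log x) ^ k := by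
        rw [← hL]
        have : 0 ≤ Real.log L := Real.log_nonneg (by linarith)
        positivity
      have hfin := end_alg r c C2 x (Vq (sysQ F σ a) x) (Vq (sysQ F σ a) ⌊ε * Real.log x⌋₊) N ((Real.log (Real.log x) / Real.log x) ^ k) _ hc hC2 hx0
        (hVpos _) (hVpos _) hN0 hR s2 s3 u3
      have hsub : solN T (WW ε x) b d ⊆ S.filter (fun n => ∀ l, n + primorial ⌊ε * Real.log x⌋₊ * (b l * d) ∈ S) := by
        intro n hn
        unfold solN at hn
        rw [mem_filter] at hn ⊢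
        refine ⟨hTS hn.1, fun l => ?_⟩
        have := hTS (hn.2 l)
        rw [mul_assoc] at this
        exact this
      calc min c (c / (C2 * C2 ^ r)) * ((Real.log (Real.log x) / Real.log x) ^ k) ^ r * N ≤
            c / (C2 * C2 ^ r) * ((Real.log (Real.log x) / Real.log x) ^ k) ^ r * N := by
            apply mul_le_mul_of_nonneg_right _ hN0
            exact mul_le_mul_of_nonneg_right (min_le_right _ _) (pow_nonneg hR _)
        _ ≤ _ := hfin
        _ ≤ _ := by exact_mod_cast card_le_card hsub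

end Pool.Agent.H544.ES
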